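import Pool.Agent.Y195.HF.Top
import Mathlib.Tactic.LinearCombination

/-!
# The action of the special linear group
-/

set_option autoImplicit false

namespace Pool.Agent.Y195.HF

open Finset
open scoped Kronecker

variable {m : ℕ}

/-- matrix of the action -/
def actM (a b c d : ℂ) : Matrix Bool Bool ℂ := Matrix.of fun s t =>
  if s = true then (if t = true then d else b) else (if t = true then c else a)

theorem actM_det (a b c d : ℂ) : (actM a b c d).det = a * d - b * c := by
  rw [← Matrix.det_submatrix_equiv_self finTwoEquiv, Matrix.det_fin_two]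
  have h0 : finTwoEquiv 0 = false := rfl
  have h1 : finTwoEquiv 1 = true := rfl
  simp only [Matrix.submatrix_apply, h0, h1, actM, Matrix.of_apply, Bool.false_eq_true, if_false,
    if_true]
  ring

/-- the action on vectors: `ψ ↦ a ψ + b χ`, `χ ↦ c ψ + d χ` -/
noncomputable def act (m : ℕ) (a b c d : ℂ) : (I2 m → ℂ) →ₗ[ℂ] (I2 m → ℂ) :=
  Matrix.toLin' ((1 : Matrix (Fin m × Bool) (Fin m × Bool) ℂ) ⊗ₖ actM a b c d)

theorem act_det {a b c d : ℂ} (h : a * d - b * c = 1) : LinearMap.det (act m a b c d) = 1 := by
  rw [act, LinearMap.det_toLin', Matrix.det_kronecker, actM_det, h]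
  simp

theorem act_th (a b c d : ℂ) (s : Bool) (x : Fin m × Bool) :
    act m a b c d (th m s x) = (if s = true then c else a) • th m false x +
      (if s = true then d else b) • th m true x := by
  funext i
  obtain ⟨y, t⟩ := i
  simp only [act, th, Matrix.toLin'_apply, Matrix.mulVec_single_one, Matrix.col_apply,
    Matrix.kroneckerMap_apply, Matrix.one_apply, actM, Matrix.of_apply, Pi.add_apply,
    Pi.smul_apply, smul_eq_mul, Pi.single_apply, Prod.mk.injEq]
  by_cases hy : y = x
  · subst hy
    cases s <;> cases t <;> simp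
  · simp [hy]

theorem map_bv (f : (I2 m → ℂ) →ₗ[ℂ] (I2 m → ℂ)) (u v : I2 m → ℂ) :
    ExteriorAlgebra.map f (zval (bv u v)) = zval (bv (f u) (f v)) := by
  rw [bv_coe, bv_coe, map_mul, ExteriorAlgebra.map_apply_ι, ExteriorAlgebra.map_apply_ι]

/-- complex matrices -/
abbrev Mt (m : ℕ) := Fin m × Bool → Fin m × Bool → ℂ

/-- quadratic elements -/
noncomputable def ff (s t : Bool) (A : Mt m) : Zc (I2 m → ℂ) :=
  ∑ i, ∑ j, A i j • bv (th m s i) (th m t j)

theorem ff_tf {A : Mt m} (hA : ∀ i j, A j i = - A i j) : ff true false A = ff false true A := by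
  unfold ff
  rw [Finset.sum_comm]
  refine Finset.sum_congr rfl fun i _ => Finset.sum_congr rfl fun j _ => ?_
  rw [bv_swap, hA i j, smul_neg, neg_smul, neg_neg]

theorem ff_add (s t : Bool) (A B : Mt m) : ff s t (A + B) = ff s t A + ff s t B := by
  unfold ff
  rw [← Finset.sum_add_distrib]
  refine Finset.sum_congr rfl fun i _ => ?_
  rw [← Finset.sum_add_distrib]
  refine Finset.sum_congr rfl fun j _ => ?_
  rw [Pi.add_apply, Pi.add_apply, add_smul]

theorem ff_smul (s t : Bool) (z : ℂ) (A : Mt m) : ff s t (z • A) = z • ff s t A := by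
  unfold ff
  rw [Finset.smul_sum]
  refine Finset.sum_congr rfl fun i _ => ?_
  rw [Finset.smul_sum]
  refine Finset.sum_congr rfl fun j _ => ?_
  rw [Pi.smul_apply, Pi.smul_apply, smul_eq_mul, mul_smul]

theorem map_ff (a b c d : ℂ) (s t : Bool) (A : Mt m) :
    ExteriorAlgebra.map (act m a b c d) (zval (ff s t A)) =
      zval (((if s = true then c else a) * (if t = true then c else a)) • ff false false A +
        ((if s = true then c else a) * (if t = true then d else b)) • ff false true A +
        ((if s = true then d else b) * (if t = true then c else a)) • ff true false A +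
        ((if s = true then d else b) * (if t = true then d else b)) • ff true true A) := by
  have h : ExteriorAlgebra.map (act m a b c d) (zval (ff s t A)) =
      zval (∑ i, ∑ j, A i j • bv (act m a b c d (th m s i)) (act m a b c d (th m t j))) := by
    simp only [ff, map_sum, map_smul, map_bv]
  rw [h]
  congr 1
  simp only [act_th]
  generalize (if s = true then c else a) = a₁
  generalize (if s = true then d else b) = b₁
  generalize (if t = true then c else a) = a₂
  generalize (if t = true then d else b) = b₂
  simp only [ff, Finset.smul_sum]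
  rw [← Finset.sum_add_distrib, ← Finset.sum_add_distrib, ← Finset.sum_add_distrib]
  refine Finset.sum_congr rfl fun i _ => ?_
  rw [← Finset.sum_add_distrib, ← Finset.sum_add_distrib, ← Finset.sum_add_distrib]
  refine Finset.sum_congr rfl fun j _ => ?_
  simp only [bv_add_left, bv_add_right, bv_smul_left, bv_smul_right]
  simp only [Algebra.smul_def, map_mul]
  ring

theorem map_pp (a b c d : ℂ) {A : Mt m} (hA : ∀ i j, A j i = - A i j) :
    ExteriorAlgebra.map (act m a b c d) (zval (ff false false A)) =
      zval ((a ^ 2) • ff false false A + (2 * a * b) • ff false true A +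
        (b ^ 2) • ff true true A) := by
  rw [map_ff, ff_tf hA]
  congr 1
  simp only [Bool.false_eq_true, if_false, Algebra.smul_def, map_mul, map_pow, map_ofNat]
  ring

theorem map_cc (a b c d : ℂ) {A : Mt m} (hA : ∀ i j, A j i = - A i j) :
    ExteriorAlgebra.map (act m a b c d) (zval (ff true true A)) =
      zval ((c ^ 2) • ff false false A + (2 * c * d) • ff false true A +
        (d ^ 2) • ff true true A) := by
  rw [map_ff, ff_tf hA]
  congr 1
  simp only [if_true, Algebra.smul_def, map_mul, map_pow, map_ofNat]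
  ring

theorem map_pc (a b c d : ℂ) {A : Mt m} (hA : ∀ i j, A j i = - A i j) :
    ExteriorAlgebra.map (act m a b c d) (zval (ff false true A)) =
      zval ((a * c) • ff false false A + (a * d + b * c) • ff false true A +
        (b * d) • ff true true A) := by
  rw [map_ff, ff_tf hA]
  congr 1
  simp only [Bool.false_eq_true, if_false, if_true, Algebra.smul_def, map_mul, map_add]
  ring

/-- the invariant of a skew form -/
noncomputable def qi (A : Mt m) : Zc (I2 m → ℂ) :=
  ff false false A * ff true true A - ff false true A ^ 2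

/-- invariant elements -/
def Inv (T : Zc (I2 m → ℂ)) : Prop :=
  ∀ a b c d : ℂ, a * d - b * c = 1 → ExteriorAlgebra.map (act m a b c d) (zval T) = zval T

theorem Inv.one : Inv (1 : Zc (I2 m → ℂ)) := fun a b c d _ => by simp only [map_one]

theorem Inv.mul {S T : Zc (I2 m → ℂ)} (hS : Inv S) (hT : Inv T) : Inv (S * T) :=
  fun a b c d h => by rw [map_mul, map_mul, hS a b c d h, hT a b c d h]

theorem Inv.pow {S : Zc (I2 m → ℂ)} (hS : Inv S) (n : ℕ) : Inv (S ^ n) :=
  fun a b c d h => by rw [map_pow, map_pow, hS a b c d h]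

theorem Inv.add {S T : Zc (I2 m → ℂ)} (hS : Inv S) (hT : Inv T) : Inv (S + T) :=
  fun a b c d h => by rw [map_add, map_add, hS a b c d h, hT a b c d h]

theorem Inv.smul {S : Zc (I2 m → ℂ)} (hS : Inv S) (z : ℂ) : Inv (z • S) :=
  fun a b c d h => by rw [map_smul, map_smul, hS a b c d h]

theorem Inv.sum {κ : Type} [Fintype κ] {S : κ → Zc (I2 m → ℂ)} (hS : ∀ k, Inv (S k)) :
    Inv (∑ k, S k) :=
  fun a b c d h => by
    rw [map_sum, map_sum]
    exact Finset.sum_congr rfl fun k _ => hS k a b c d h

theorem qi_inv {A : Mt m} (hA : ∀ i j, A j i = - A i j) : Inv (qi A) := by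
  intro a b c d h
  rw [qi, map_sub, map_sub, map_mul, map_mul, map_pow, map_pow, map_pp _ _ _ _ hA,
    map_cc _ _ _ _ hA, map_pc _ _ _ _ hA, ← map_mul, ← map_mul, ← map_pow, ← map_pow, ← map_sub,
    ← map_sub]
  congr 1
  have h' : algebraMap ℂ (Zc (I2 m → ℂ)) a * algebraMap ℂ (Zc (I2 m → ℂ)) d -
      algebraMap ℂ (Zc (I2 m → ℂ)) b * algebraMap ℂ (Zc (I2 m → ℂ)) c = 1 := by
    rw [← map_mul, ← map_mul, ← map_sub, h, map_one]
  simp only [Algebra.smul_def, map_mul, map_pow, map_ofNat, map_add]
  generalize algebraMap ℂ (Zc (I2 m → ℂ)) a = a' at *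
  generalize algebraMap ℂ (Zc (I2 m → ℂ)) b = b' at *
  generalize algebraMap ℂ (Zc (I2 m → ℂ)) c = c' at *
  generalize algebraMap ℂ (Zc (I2 m → ℂ)) d = d' at *
  generalize ff false false A = x
  generalize ff true true A = y
  generalize ff false true A = z
  linear_combination (x * y - z ^ 2) * (a' * d' - b' * c' + 1) * h'

/-- the curvature type tensor of a skew form, in components -/
def scC (A : Mt m) : C4 m := fun i j k l => 2 * (A i j * A k l) + A i k * A j l - A i l * A j k

/-- the element of a tensor -/
noncomputable def eL (C : C4 m) : Zc (I2 m → ℂ) := el (th m false) (th m true) C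

theorem eL_add (C D : C4 m) : eL (fun i j k l => C i j k l + D i j k l) = eL C + eL D := by
  simp only [eL, el, add_smul, Finset.sum_add_distrib]

theorem eL_smul (z : ℂ) (C : C4 m) : eL (fun i j k l => z * C i j k l) = z • eL C := by
  simp only [eL, el, mul_smul, Finset.smul_sum]

theorem eL_sum {κ : Type} [Fintype κ] (C : κ → C4 m) :
    eL (fun i j k l => ∑ a, C a i j k l) = ∑ a, eL (C a) := by
  simp only [eL, el, Finset.sum_smul]
  symm
  rw [Finset.sum_comm]
  refine Finset.sum_congr rfl fun i _ => ?_
  rw [Finset.sum_comm]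
  refine Finset.sum_congr rfl fun j _ => ?_
  rw [Finset.sum_comm]
  refine Finset.sum_congr rfl fun k _ => ?_
  rw [Finset.sum_comm]

theorem eL_mul (A B : Mt m) : eL (fun i j k l => A i j * B k l) =
    ff false false A * ff true true B := by
  simp only [eL, el, ff]
  rw [Finset.sum_mul]
  refine Finset.sum_congr rfl fun i _ => ?_
  rw [Finset.sum_mul]
  refine Finset.sum_congr rfl fun j _ => ?_
  rw [Finset.mul_sum]
  refine Finset.sum_congr rfl fun k _ => ?_
  rw [Finset.mul_sum]
  refine Finset.sum_congr rfl fun l _ => ?_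
  simp only [Algebra.smul_def, map_mul]
  ring

theorem eL_cross (A : Mt m) : eL (fun i j k l => A i k * A j l) = - ff false true A ^ 2 := by
  have h : ff false true A ^ 2 = ∑ i, ∑ j, ∑ k, ∑ l, (A i k * A j l) •
      (bv (th m false i) (th m true k) * bv (th m false j) (th m true l)) := by
    simp only [sq, ff]
    rw [Finset.sum_mul]
    refine Finset.sum_congr rfl fun i _ => ?_
    rw [Finset.mul_sum]
    refine Finset.sum_congr rfl fun j _ => ?_
    rw [Finset.sum_mul]
    refine Finset.sum_congr rfl fun k _ => ?_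
    rw [Finset.mul_sum]
    refine Finset.sum_congr rfl fun l _ => ?_
    simp only [Algebra.smul_def, map_mul]
    ring
  rw [h, eL, el, ← Finset.sum_neg_distrib]
  refine Finset.sum_congr rfl fun i _ => ?_
  rw [← Finset.sum_neg_distrib]
  refine Finset.sum_congr rfl fun j _ => ?_
  rw [← Finset.sum_neg_distrib]
  refine Finset.sum_congr rfl fun k _ => ?_
  rw [← Finset.sum_neg_distrib]
  refine Finset.sum_congr rfl fun l _ => ?_
  rw [bv_exch (th m false i) (th m true k), smul_neg, neg_neg]

theorem eL_cross' (A : Mt m) : eL (fun i j k l => A i l * A j k) = ff false true A ^ 2 := by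
  have h := eL_cross A
  rw [eq_comm, neg_eq_iff_eq_neg] at h
  rw [h]
  simp only [eL, el]
  rw [← Finset.sum_neg_distrib]
  refine Finset.sum_congr rfl fun i _ => ?_
  rw [← Finset.sum_neg_distrib]
  refine Finset.sum_congr rfl fun j _ => ?_
  rw [Finset.sum_comm, ← Finset.sum_neg_distrib]
  refine Finset.sum_congr rfl fun k _ => ?_
  rw [← Finset.sum_neg_distrib]
  refine Finset.sum_congr rfl fun l _ => ?_
  rw [bv_swap (th m true k) (th m true l), mul_neg, smul_neg]

theorem eL_sc (A : Mt m) : eL (scC A) = (2 : ℂ) • qi A := by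
  have h1 : scC A = fun i j k l => ((2 : ℂ) * (A i j * A k l) + A i k * A j l) +
      (-1 : ℂ) * (A i l * A j k) := by
    funext i j k l
    simp only [scC]
    ring
  rw [h1, eL_add, eL_add, eL_smul 2 (fun i j k l => A i j * A k l),
    eL_smul (-1) (fun i j k l => A i l * A j k), eL_mul, eL_cross, eL_cross', qi, smul_sub]
  simp only [neg_smul, one_smul, two_smul]
  ring

/-- curvature tensors which are sums of squares give invariant elements -/
theorem eL_inv {κ : Type} [Fintype κ] {C : C4 m} (ν : κ → Mt m) (hν : ∀ a i j, ν a j i = - ν a i j)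
    (hC : ∀ i j k l, C i j k l = ∑ a, ν a i j * ν a k l)
    (hb : ∀ i j k l, C i j k l + C j k i l + C k i j l = 0) : Inv (eL C) := by
  have h1 : C = fun i j k l => (1 / 3 : ℂ) * ∑ a, scC (ν a) i j k l := by
    funext i j k l
    have h2 : ∑ a, scC (ν a) i j k l = 2 * C i j k l + C i k j l - C i l j k := by
      simp only [scC, hC, Finset.sum_add_distrib, Finset.sum_sub_distrib, Finset.mul_sum]
    have h3 : C k i j l = - C i k j l := by
      rw [hC, hC, ← Finset.sum_neg_distrib]
      refine Finset.sum_congr rfl fun a _ => ?_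
      rw [hν a i k]; ring
    have h4 : C j k i l = C i l j k := by
      rw [hC, hC]
      refine Finset.sum_congr rfl fun a _ => ?_
      ring
    rw [h2]
    linear_combination (1 / 3 : ℂ) * hb i j k l - (1 / 3 : ℂ) * h3 - (1 / 3 : ℂ) * h4
  rw [h1, eL_smul (1 / 3) (fun i j k l => ∑ a, scC (ν a) i j k l), eL_sum]
  refine Inv.smul (Inv.sum fun a => ?_) _
  rw [eL_sc]
  exact (qi_inv (hν a)).smul _

end Pool.Agent.Y195.HF
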