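import Mathlib.LinearAlgebra.ExteriorAlgebra.Basic
import Mathlib.Algebra.Algebra.Subalgebra.Basic
import Mathlib.LinearAlgebra.Complex.Module

/-!
# Products of two vectors in an exterior algebra
-/

set_option autoImplicit false

namespace Pool.Agent.Y195.HF

open Finset

section general

variable {M : Type} [AddCommGroup M] [Module ℂ M]

theorem iota_anti (u v : M) : ExteriorAlgebra.ι ℂ u * ExteriorAlgebra.ι ℂ v =
    -(ExteriorAlgebra.ι ℂ v * ExteriorAlgebra.ι ℂ u) :=
  eq_neg_of_add_eq_zero_left (ExteriorAlgebra.ι_add_mul_swap u v)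

theorem pair_comm (u v : M) (x : ExteriorAlgebra ℂ M) :
    Commute (ExteriorAlgebra.ι ℂ u * ExteriorAlgebra.ι ℂ v) x := by
  induction x using ExteriorAlgebra.induction with
  | algebraMap r => exact (Algebra.commutes r _).symm
  | ι w =>
    show _ * _ = _ * _
    rw [mul_assoc, iota_anti v w, mul_neg, ← mul_assoc, iota_anti u w, neg_mul, neg_neg, mul_assoc]
  | mul a b ha hb => exact ha.mul_right hb
  | add a b ha hb => exact ha.add_right hb

/-- the centre of the exterior algebra -/
def Zc (M : Type) [AddCommGroup M] [Module ℂ M] : Type :=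
  Subalgebra.center ℂ (ExteriorAlgebra ℂ M)

noncomputable instance : CommRing (Zc M) :=
  inferInstanceAs (CommRing (Subalgebra.center ℂ (ExteriorAlgebra ℂ M)))

noncomputable instance : Algebra ℂ (Zc M) :=
  inferInstanceAs (Algebra ℂ (Subalgebra.center ℂ (ExteriorAlgebra ℂ M)))

/-- the inclusion of the centre -/
noncomputable def zval : Zc M →ₐ[ℂ] ExteriorAlgebra ℂ M :=
  (Subalgebra.center ℂ (ExteriorAlgebra ℂ M)).val

theorem zval_inj {x y : Zc M} (h : zval x = zval y) : x = y := Subtype.ext h

/-- product of two vectors -/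
noncomputable def bv (u v : M) : Zc M :=
  (⟨ExteriorAlgebra.ι ℂ u * ExteriorAlgebra.ι ℂ v,
    Subalgebra.mem_center_iff.mpr fun x => (pair_comm u v x).eq.symm⟩ :
      Subalgebra.center ℂ (ExteriorAlgebra ℂ M))

theorem bv_coe (u v : M) : zval (bv u v) = ExteriorAlgebra.ι ℂ u * ExteriorAlgebra.ι ℂ v := rfl

theorem bv_add_left (u u' v : M) : bv (u + u') v = bv u v + bv u' v := by
  apply zval_inj
  simp only [bv_coe, map_add, add_mul]

theorem bv_add_right (u v v' : M) : bv u (v + v') = bv u v + bv u v' := by
  apply zval_inj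
  simp only [bv_coe, map_add, mul_add]

theorem bv_smul_left (c : ℂ) (u v : M) : bv (c • u) v = c • bv u v := by
  apply zval_inj
  simp only [bv_coe, map_smul, smul_mul_assoc]

theorem bv_smul_right (c : ℂ) (u v : M) : bv u (c • v) = c • bv u v := by
  apply zval_inj
  simp only [bv_coe, map_smul, mul_smul_comm]

theorem bv_self (u : M) : bv u u = 0 := by
  apply zval_inj
  simp only [bv_coe, ExteriorAlgebra.ι_sq_zero, map_zero]

theorem bv_swap (u v : M) : bv v u = - bv u v := by
  apply zval_inj
  simp only [bv_coe, map_neg]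
  exact iota_anti v u

theorem bv_exch (u v w z : M) : bv u v * bv w z = - (bv u w * bv v z) := by
  apply zval_inj
  simp only [bv_coe, map_neg, map_mul]
  rw [mul_assoc, ← mul_assoc (ExteriorAlgebra.ι ℂ v), iota_anti v w]
  simp only [neg_mul, mul_neg, mul_assoc]

theorem bv_mul_self_right (u v z : M) : bv u v * bv v z = 0 := by
  have h : bv u v * bv v z = - (bv u v * bv v z) := bv_exch u v v z
  have h2 : (2 : ℂ) • (bv u v * bv v z) = 0 := by
    rw [two_smul]
    nth_rewrite 2 [h]
    exact add_neg_cancel _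
  exact (smul_eq_zero.mp h2).resolve_left two_ne_zero

end general

end Pool.Agent.Y195.HF
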