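import Pool.Agent.Y195.HF.Pos
import Pool.Agent.W669.HD.Main

/-!
# The Gauss–Bonnet–Chern integrand for a nonpositive curvature operator and two skew forms
-/

set_option autoImplicit false

namespace Pool.Agent.Y195.HF

open Pool.Agent.W666.GB Pool.Agent.W669.HD Finset

section vector

variable {V : Type*} [NormedAddCommGroup V] [InnerProductSpace ℝ V]

/-- Skew-symmetric bilinear forms on `V`. (Linearity in the first argument and the symmetry imply
linearity in the second one.) -/
structure SkewForm (A : V → V → ℝ) : Prop where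
  add : ∀ x x' y, A (x + x') y = A x y + A x' y
  smul : ∀ (t : ℝ) (x y : V), A (t • x) y = t * A x y
  anti : ∀ x y, A y x = - A x y

/-- The algebraic curvature tensor of a skew form; its sectional curvatures are `3 A(x,y)²`. -/
def skewCurv (A : V → V → ℝ) (x y z w : V) : ℝ :=
  2 * (A x y * A z w) + A x z * A y w - A x w * A y z

theorem SkewForm.curv {A : V → V → ℝ} (hA : SkewForm A) : AlgCurv (skewCurv A) where
  add x x' y z w := by
    simp only [skewCurv, hA.add]
    ring
  smul t x y z w := by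
    simp only [skewCurv, hA.smul]
    ring
  anti x y z w := by
    simp only [skewCurv]
    rw [hA.anti x y]
    ring
  pair x y z w := by
    simp only [skewCurv]
    rw [hA.anti x z, hA.anti y w, hA.anti y z, hA.anti x w]
    ring
  bianchi x y z w := by
    simp only [skewCurv]
    rw [hA.anti x z, hA.anti x y, hA.anti y z]
    ring

end vector

variable {m : ℕ}

/-- complexification of a tensor -/
noncomputable def cx (K : T4 m) : C4 m := fun i j k l => (K i j k l : ℂ)

theorem gmC_cx (C : Fin m → T4 m) : gmC (fun b => cx (C b)) = ((gm C : ℝ) : ℂ) := by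
  unfold gmC gm cx
  push_cast
  refine Finset.sum_congr rfl fun σ _ => Finset.sum_congr rfl fun τ _ => ?_
  simp only [sn, Complex.ofReal_intCast]

theorem gm_LR (K : T4 m) : gm (fun _ : Fin m => K) = LR m (eL (cx K) ^ m) := by
  have h := LF_el (fun _ : Fin m => cx K)
  rw [Finset.prod_const, Finset.card_univ, Fintype.card_fin, gmC_cx] at h
  rw [LR_apply, eL, h, Complex.ofReal_re]

/-- complexification of a matrix -/
noncomputable def cm (A : Fin m × Bool → Fin m × Bool → ℝ) : Mt m := fun i j => (A i j : ℂ)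

theorem cj_cm (A : Fin m × Bool → Fin m × Bool → ℝ) : cj (cm A) = cm A := by
  funext i j
  simp only [cj, cm, Complex.conj_ofReal]

/-- admissible tensors: sums of squares with the first Bianchi identity -/
structure Adm (K : T4 m) : Prop where
  sq : ∃ (n : ℕ) (ν : Fin n → Fin m × Bool → Fin m × Bool → ℝ),
    (∀ a i j, ν a j i = - ν a i j) ∧ ∀ i j k l, K i j k l = ∑ a, ν a i j * ν a k l
  bia : ∀ i j k l, K i j k l + K j k i l + K k i j l = 0

theorem Adm.inv {K : T4 m} (h : Adm K) : Inv (eL (cx K)) := by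
  obtain ⟨n, ν, hν, hK⟩ := h.sq
  refine eL_inv (κ := Fin n) (fun a => cm (ν a)) ?_ ?_ ?_
  · intro a i j
    simp only [cm, hν a i j, Complex.ofReal_neg]
  · intro i j k l
    simp only [cx, cm, hK i j k l]
    push_cast
    rfl
  · intro i j k l
    simp only [cx]
    exact_mod_cast h.bia i j k l

theorem Adm.mem {K : T4 m} (h : Adm K) : eL (cx K) ∈ cone m 1 := by
  obtain ⟨n, ν, hν, hK⟩ := h.sq
  refine cone_sq (κ := Fin n) (fun a => cm (ν a)) (fun a => cj_cm _) ?_
  intro i j k l
  simp only [cx, cm, hK i j k l]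
  push_cast
  rfl

/-- the tensor of a skew matrix -/
def scR (A : Fin m × Bool → Fin m × Bool → ℝ) : T4 m := fun i j k l =>
  2 * (A i j * A k l) + A i k * A j l - A i l * A j k

theorem eL_scR (A : Fin m × Bool → Fin m × Bool → ℝ) : eL (cx (scR A)) = (2 : ℂ) • qi (cm A) := by
  rw [← eL_sc]
  congr 1
  funext i j k l
  simp only [cx, scR, scC, cm]
  push_cast
  ring

/-- The algebraic main theorem. -/
theorem gm_bound {D P : T4 m} (hD : Adm D) (hP : Adm P)
    {A B : Fin m × Bool → Fin m × Bool → ℝ} (hA : ∀ i j, A j i = - A i j)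
    (hB : ∀ i j, B j i = - B i j) :
    gm (fun _ : Fin m => D) ≤ gm (fun _ : Fin m =>
      (fun i j k l => D i j k l + (P i j k l + (scR A i j k l + scR B i j k l)) : T4 m)) := by
  have hA' : ∀ i j, cm A j i = - cm A i j := fun i j => by
    simp only [cm, hA i j, Complex.ofReal_neg]
  have hB' : ∀ i j, cm B j i = - cm B i j := fun i j => by
    simp only [cm, hB i j, Complex.ofReal_neg]
  have key : ∀ a b c : ℕ, a + b + c = m →
      0 ≤ LR m (eL (cx D) ^ a * (eL (cx P) ^ b * (eL (cx (scR A)) + eL (cx (scR B))) ^ c)) := by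
    intro a b c habc
    have hI : Inv (eL (cx D) ^ a * eL (cx P) ^ b) := (hD.inv.pow a).mul (hP.inv.pow b)
    have hc : eL (cx D) ^ a * eL (cx P) ^ b ∈ cone m (a + b) :=
      cone_mul (cone_pow hD.mem a) (cone_pow hP.mem b)
    have h := pos_main hA' hB' (cj_cm A) (cj_cm B) hI hc (N := c) (by omega)
    rw [← LR_apply] at h
    have e1 : eL (cx D) ^ a * (eL (cx P) ^ b * (eL (cx (scR A)) + eL (cx (scR B))) ^ c) =
        ((2 : ℝ) ^ c) • ((qi (cm A) + qi (cm B)) ^ c * (eL (cx D) ^ a * eL (cx P) ^ b)) := by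
      rw [eL_scR, eL_scR, ← smul_add, smul_pow, ← Complex.coe_smul]
      push_cast
      simp only [Algebra.smul_def]
      ring
    rw [e1, map_smul, smul_eq_mul]
    positivity
  have hsum : eL (cx (fun i j k l => D i j k l + (P i j k l + (scR A i j k l + scR B i j k l)) :
      T4 m)) = eL (cx D) + (eL (cx P) + (eL (cx (scR A)) + eL (cx (scR B)))) := by
    rw [← eL_add (cx (scR A)), ← eL_add (cx P), ← eL_add (cx D)]
    congr 1
    funext i j k l
    simp only [cx]
    push_cast
    rfl
  rw [gm_LR, gm_LR, hsum, add_pow, map_sum, Finset.sum_range_succ]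
  have h1 : eL (cx D) ^ m * (eL (cx P) + (eL (cx (scR A)) + eL (cx (scR B)))) ^ (m - m) *
      ((m.choose m : ℕ) : Zc (I2 m → ℂ)) = eL (cx D) ^ m := by
    rw [Nat.sub_self, pow_zero, Nat.choose_self, Nat.cast_one, mul_one, mul_one]
  rw [h1]
  have h2 : 0 ≤ ∑ k ∈ Finset.range m, LR m (eL (cx D) ^ k *
      (eL (cx P) + (eL (cx (scR A)) + eL (cx (scR B)))) ^ (m - k) *
        ((m.choose k : ℕ) : Zc (I2 m → ℂ))) := by
    refine Finset.sum_nonneg fun k hk => ?_
    rw [Finset.mem_range] at hk
    rw [add_pow, Finset.mul_sum, Finset.sum_mul, map_sum]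
    refine Finset.sum_nonneg fun j hj => ?_
    rw [Finset.mem_range] at hj
    have h3 := key k j (m - k - j) (by omega)
    have e2 : eL (cx D) ^ k * (eL (cx P) ^ j * (eL (cx (scR A)) + eL (cx (scR B))) ^ (m - k - j) *
        (((m - k).choose j : ℕ) : Zc (I2 m → ℂ))) * ((m.choose k : ℕ) : Zc (I2 m → ℂ)) =
        (((m - k).choose j * m.choose k : ℕ) : ℝ) • (eL (cx D) ^ k * (eL (cx P) ^ j *
          (eL (cx (scR A)) + eL (cx (scR B))) ^ (m - k - j))) := by
      simp only [Algebra.smul_def, map_natCast, Nat.cast_mul, map_mul]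
      ring
    rw [e2, map_smul, smul_eq_mul]
    positivity
  linarith

section final

variable {V : Type} [NormedAddCommGroup V] [InnerProductSpace ℝ V]

theorem neg_curv {R : V → V → V → V → ℝ} (hR : AlgCurv R) : AlgCurv (negT R) where
  add x x' y z w := by simp only [negT, hR.add]; ring
  smul t x y z w := by simp only [negT, hR.smul]; ring
  anti x y z w := by simp only [negT]; rw [hR.anti]
  pair x y z w := by simp only [negT]; rw [hR.pair]
  bianchi x y z w := by
    have := hR.bianchi x y z w
    simp only [negT]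
    linarith

theorem adm_cp (e : OrthonormalBasis (Fin m × Bool) ℝ V) {K : V → V → V → V → ℝ}
    (hK : AlgCurv K) (hn : OpNonneg K) : Adm (cp e K) where
  sq := by
    obtain ⟨n, ν, hν, hKν⟩ := (Pool.Agent.W150.HD.curv_bi hK).squares (fun i => e i) hn
    exact ⟨n, ν, hν, fun i j k l => hKν i j k l⟩
  bia i j k l := hK.bianchi _ _ _ _

theorem adm_unit {δ : ℝ} (hδ : 0 ≤ δ) : Adm (fun i j k l => δ * unitCurv i j k l : T4 m) where
  sq := by
    have eqv := (Fintype.equivFin ((Fin m × Bool) × (Fin m × Bool))).symm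
    refine ⟨_, fun a => ur δ (eqv a), ?_, ?_⟩
    · intro a i j
      simp only [ur]
      ring
    · intro i j k l
      rw [unit_squares hδ]
      exact (Equiv.sum_comp eqv (fun p => ur δ p i j * ur δ p k l)).symm
  bia i j k l := by
    simp only [unitCurv]
    have e1 : ∀ a b : Fin m × Bool, (if a = b then (1 : ℝ) else 0) = if b = a then 1 else 0 := by
      intro a b
      simp only [eq_comm]
    rw [e1 k i, e1 k j, e1 j i]
    ring

/-- The hypothesis: `-R = P + skewCurv A + skewCurv B`, where the curvature operator of the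
algebraic curvature tensor `P` is at least `δ`. -/
def TwoSkew (δ : ℝ) (R : V → V → V → V → ℝ) : Prop :=
  ∃ A B : V → V → ℝ, SkewForm A ∧ SkewForm B ∧
    OpNonneg (negT (addT (addT (addT R fun x y z w => δ * unitT x y z w) (skewCurv A))
      (skewCurv B)))

theorem two_skew (e : OrthonormalBasis (Fin m × Bool) ℝ V) {R : V → V → V → V → ℝ}
    (hR : AlgCurv R) {δ : ℝ} (hδ : 0 ≤ δ) (h : TwoSkew δ R) :
    roundGB m δ ≤ (-1) ^ m * gbc e R := by
  classical
  obtain ⟨A, B, hA, hB, hn⟩ := h
  rw [gbc_eq]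
  have hπ := Real.pi_pos
  have hc : 0 < 1 / ((8 * Real.pi) ^ m * (m.factorial : ℝ)) := by positivity
  have hr : roundGB m δ = 1 / ((8 * Real.pi) ^ m * m.factorial) *
      (2 ^ m * (δ ^ m * (2 * m).factorial)) := by
    unfold roundGB
    have : (8 * Real.pi) ^ m = 2 ^ m * (4 * Real.pi) ^ m := by
      rw [← mul_pow]; congr 1; ring
    rw [this]
    field_simp
  rw [hr]
  refine mul_le_mul_of_nonneg_left ?_ hc.le
  have hP : AlgCurv (negT (addT (addT (addT R fun x y z w => δ * unitT x y z w) (skewCurv A))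
      (skewCurv B))) :=
    neg_curv (add_curv (add_curv (add_curv hR (unit_curv δ)) hA.curv) hB.curv)
  have h1 := gm_bound (adm_unit (m := m) hδ) (adm_cp e hP hn)
    (A := fun i j => A (e i) (e j)) (B := fun i j => B (e i) (e j))
    (fun i j => hA.anti _ _) (fun i j => hB.anti _ _)
  rw [unit_gm] at h1
  refine h1.trans (le_of_eq ?_)
  congr 1
  funext _ i j k l
  have h2 := cp_unit e i j k l
  simp only [cp, negT, addT, skewCurv, scR, h2]
  ring

theorem field_skew {M : Type} [MeasurableSpace M] (μ : MeasureTheory.Measure M)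
    (K : CurvField m M) (h : ∀ p, TwoSkew 0 (K.R p)) :
    0 ≤ (-1) ^ m * ∫ p, K.gb p ∂μ := by
  rw [← MeasureTheory.integral_const_mul]
  refine MeasureTheory.integral_nonneg fun p => ?_
  exact (roundGB_nonneg le_rfl).trans (two_skew (K.e p) (K.curv p) le_rfl (h p))

theorem field_skew' {M : Type} [MeasurableSpace M] (μ : MeasureTheory.Measure M)
    [MeasureTheory.IsFiniteMeasure μ] (K : CurvField m M) (hi : MeasureTheory.Integrable K.gb μ)
    {δ : ℝ} (hδ : 0 ≤ δ) (h : ∀ p, TwoSkew δ (K.R p)) :
    roundGB m δ * μ.real Set.univ ≤ (-1) ^ m * ∫ p, K.gb p ∂μ := by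
  rw [← MeasureTheory.integral_const_mul]
  have h1 : roundGB m δ * μ.real Set.univ = ∫ _, roundGB m δ ∂μ := by
    rw [MeasureTheory.integral_const, smul_eq_mul, mul_comm]
  rw [h1]
  refine MeasureTheory.integral_mono (MeasureTheory.integrable_const _) (hi.const_mul _) fun p => ?_
  exact two_skew (K.e p) (K.curv p) hδ (h p)

end final

end Pool.Agent.Y195.HF
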