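import Pool.Agent.Y195.HF.Min6
import Pool.Agent.Y195.HF.Main

/-!
# Pieces of dimension four
-/

set_option autoImplicit false

namespace Pool.Agent.Y195.HF

open Pool.Agent.W666.GB Pool.Agent.W669.HD Pool.Agent.W150.HD Pool.Agent.W976.HD Finset

/-- first index of a pair -/
def P1 : I6 → Fin 4
  | (0, false) => 0
  | (0, true) => 2
  | (1, false) => 0
  | (1, true) => 3
  | (2, false) => 0
  | (2, true) => 1

/-- second index of a pair -/
def P2 : I6 → Fin 4
  | (0, false) => 1
  | (0, true) => 3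
  | (1, false) => 2
  | (1, true) => 1
  | (2, false) => 3
  | (2, true) => 2

theorem pairsum {a X : Fin 4 → Fin 4 → ℝ} (ha : ∀ i j, a j i = - a i j)
    (hX : ∀ i j, X j i = - X i j) :
    ∑ i, ∑ j, a i j * X i j = 2 * ∑ p, a (P1 p) (P2 p) * X (P1 p) (P2 p) := by
  have z : ∀ i, X i i = 0 := fun i => by have := hX i i; linarith
  simp only [Fintype.sum_prod_type, Fin.sum_univ_three, Fintype.sum_bool, P1, P2,
    Fin.sum_univ_four, z, mul_zero]
  rw [ha 0 1, ha 0 2, ha 0 3, ha 1 2, ha 1 3, ha 2 3, hX 0 1, hX 0 2, hX 0 3, hX 1 2, hX 1 3,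
    hX 2 3]
  ring

/-- the matrix of a tensor -/
def T6 (K : Fin 4 → Fin 4 → Fin 4 → Fin 4 → ℝ) : Matrix I6 I6 ℝ :=
  Matrix.of fun p q => K (P1 p) (P2 p) (P1 q) (P2 q)

theorem quad {K : Fin 4 → Fin 4 → Fin 4 → Fin 4 → ℝ} (h12 : ∀ i j k l, K j i k l = - K i j k l)
    (h34 : ∀ i j k l, K i j l k = - K i j k l) {X : Fin 4 → Fin 4 → ℝ}
    (hX : ∀ i j, X j i = - X i j) :
    ∑ i, ∑ j, ∑ k, ∑ l, K i j k l * (X i j * X k l) =
      4 * qf (T6 K) (fun p => X (P1 p) (P2 p)) := by
  have h1 : ∀ i j, ∑ k, ∑ l, K i j k l * (X i j * X k l) =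
      (2 * ∑ q, K i j (P1 q) (P2 q) * X (P1 q) (P2 q)) * X i j := by
    intro i j
    rw [← pairsum (h34 i j) hX, Finset.sum_mul]
    refine Finset.sum_congr rfl fun k _ => ?_
    rw [Finset.sum_mul]
    refine Finset.sum_congr rfl fun l _ => ?_
    ring
  simp only [h1]
  rw [pairsum (a := fun i j => 2 * ∑ q, K i j (P1 q) (P2 q) * X (P1 q) (P2 q)) ?_ hX]
  · unfold qf
    rw [Finset.mul_sum, Finset.mul_sum]
    refine Finset.sum_congr rfl fun p _ => ?_
    rw [Finset.mul_sum, Finset.sum_mul, Finset.mul_sum, Finset.mul_sum]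
    refine Finset.sum_congr rfl fun q _ => ?_
    simp only [T6, Matrix.of_apply]
    ring
  · intro i j
    rw [← mul_neg, ← Finset.sum_neg_distrib]
    congr 1
    refine Finset.sum_congr rfl fun q _ => ?_
    rw [h12 i j]
    ring

theorem T6_eps : T6 eps = Em := by
  ext p q
  simp only [T6, Em, Matrix.of_apply]
  rw [eps_cast]
  have h : ∀ p q : I6, epsZ (P1 p) (P2 p) (P1 q) (P2 q) = if q = sw p then 1 else 0 := by
    decide
  rw [h p q]
  split_ifs <;> simp

/-- the skew matrix with given coordinates -/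
def lift (y : I6 → ℝ) (i j : Fin 4) : ℝ :=
  ∑ p, y p * ((if i = P1 p then 1 else 0) * (if j = P2 p then 1 else 0) -
    (if j = P1 p then 1 else 0) * (if i = P2 p then 1 else 0))

theorem lift_skew (y : I6 → ℝ) (i j : Fin 4) : lift y j i = - lift y i j := by
  unfold lift
  rw [← Finset.sum_neg_distrib]
  refine Finset.sum_congr rfl fun p _ => ?_
  ring

theorem lift_coord (y : I6 → ℝ) (p : I6) : lift y (P1 p) (P2 p) = y p := by
  unfold lift
  rw [Finset.sum_eq_single p]
  · have h : ¬ (P2 p = P1 p) := by revert p; decide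
    simp [h]
  · intro q _ hq
    have h1 : ∀ p q : I6, q ≠ p → ¬ (P1 p = P1 q ∧ P2 p = P2 q) := by decide
    have h2 : ∀ p q : I6, q ≠ p → ¬ (P2 p = P1 q ∧ P1 p = P2 q) := by decide
    have h3 := h1 p q hq
    have h4 := h2 p q hq
    have e1 : (if P1 p = P1 q then (1 : ℝ) else 0) * (if P2 p = P2 q then 1 else 0) = 0 := by
      by_cases h : P1 p = P1 q
      · rw [if_neg (fun h' => h3 ⟨h, h'⟩), mul_zero]
      · rw [if_neg h, zero_mul]
    have e2 : (if P2 p = P1 q then (1 : ℝ) else 0) * (if P1 p = P2 q then 1 else 0) = 0 := by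
      by_cases h : P2 p = P1 q
      · rw [if_neg (fun h' => h4 ⟨h, h'⟩), mul_zero]
      · rw [if_neg h, zero_mul]
    rw [e1, e2]
    ring
  · simp

/-- the curvature type tensor of a skew matrix -/
def sc4 (U : Fin 4 → Fin 4 → ℝ) (i j k l : Fin 4) : ℝ :=
  2 * (U i j * U k l) + U i k * U j l - U i l * U j k

theorem sc4_eq (u : I6 → ℝ) (i j k l : Fin 4) : sc4 (lift u) i j k l =
    3 * (lift u i j * lift u k l) - (1 / 2) * hb u u * eps i j k l := by
  have hU := lift_skew u
  have h := alt_eps (Ω := fun i j k l => lift u i j * lift u k l - lift u i k * lift u j l +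
    lift u i l * lift u j k)
    (fun i j k l => by rw [hU i j]; ring)
    (fun i j k l => by rw [hU j k]; ring)
    (fun i j k l => by rw [hU k l]; ring) i j k l
  have h1 : lift u 0 1 * lift u 2 3 - lift u 0 2 * lift u 1 3 + lift u 0 3 * lift u 1 2 =
      (1 / 2) * hb u u := by
    rw [hb_self, Fin.sum_univ_three]
    have c1 := lift_coord u (0, false)
    have c2 := lift_coord u (0, true)
    have c3 := lift_coord u (1, false)
    have c4 := lift_coord u (1, true)
    have c5 := lift_coord u (2, false)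
    have c6 := lift_coord u (2, true)
    simp only [P1, P2] at c1 c2 c3 c4 c5 c6
    rw [← c1, ← c2, ← c3, ← c4, ← c5, ← c6, hU 1 3]
    ring
  rw [h1] at h
  unfold sc4
  linarith

theorem qf_sc4 (u x : I6 → ℝ) : qf (T6 (sc4 (lift u))) x =
    3 * dt u x ^ 2 - (1 / 2) * hb u u * hb x x := by
  have h1 : T6 (sc4 (lift u)) = (Matrix.of fun p q => 3 * (u p * u q) : Matrix I6 I6 ℝ) +
      (-(1 / 2) * hb u u) • Em := by
    rw [← T6_eps]
    ext p q
    simp only [T6, Matrix.of_apply, Matrix.add_apply, Matrix.smul_apply, smul_eq_mul, sc4_eq,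
      lift_coord]
    ring
  rw [h1, qf_add_hb]
  have h2 : qf (Matrix.of fun p q => 3 * (u p * u q) : Matrix I6 I6 ℝ) x = 3 * dt u x ^ 2 := by
    unfold qf dt
    rw [sq, Finset.sum_mul_sum, Finset.mul_sum]
    refine Finset.sum_congr rfl fun p _ => ?_
    rw [Finset.mul_sum]
    refine Finset.sum_congr rfl fun q _ => ?_
    rw [Matrix.of_apply]
    ring
  rw [h2]
  ring

section vec

variable {V : Type} [NormedAddCommGroup V] [InnerProductSpace ℝ V]

/-- the skew form with given coordinates -/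
noncomputable def sform (f : Fin 4 → V) (c : ℝ) (u : I6 → ℝ) (x y : V) : ℝ :=
  c * ∑ k, ∑ l, lift u k l * (inner ℝ (f k) x * inner ℝ (f l) y)

theorem sform_skew (f : Fin 4 → V) (c : ℝ) (u : I6 → ℝ) : SkewForm (sform f c u) where
  add x x' y := by
    simp only [sform, inner_add_right, add_mul, mul_add, Finset.sum_add_distrib]
  smul t x y := by
    simp only [sform, inner_smul_right, Finset.mul_sum]
    refine Finset.sum_congr rfl fun k _ => Finset.sum_congr rfl fun l _ => ?_
    ring
  anti x y := by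
    unfold sform
    rw [Finset.sum_comm, ← mul_neg, ← Finset.sum_neg_distrib]
    congr 1
    refine Finset.sum_congr rfl fun k _ => ?_
    rw [← Finset.sum_neg_distrib]
    refine Finset.sum_congr rfl fun l _ => ?_
    rw [lift_skew u k l]
    ring

theorem sform_basis {f : Fin 4 → V} (hf : Orthonormal ℝ f) (c : ℝ) (u : I6 → ℝ) (i j : Fin 4) :
    sform f c u (f i) (f j) = c * lift u i j := by
  unfold sform
  congr 1
  have h : ∀ a b, inner ℝ (f a) (f b) = if a = b then (1 : ℝ) else 0 :=
    fun a b => orthonormal_iff_ite.mp hf a b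
  simp only [h]
  rw [Finset.sum_eq_single i]
  · rw [Finset.sum_eq_single j]
    · simp
    · intro l _ hl
      simp [hl]
    · simp
  · intro k _ hk
    simp [hk]
  · simp

theorem sform_zero {f : Fin 4 → V} (c : ℝ) (u : I6 → ℝ) {x : V} (hx : ∀ i, inner ℝ (f i) x = 0)
    (y : V) : sform f c u x y = 0 := by
  unfold sform
  simp only [hx, zero_mul, mul_zero, Finset.sum_const_zero]

theorem piece (f : Fin 4 → V) (hf : Orthonormal ℝ f) {R : V → V → V → V → ℝ} (hR : AlgCurv R)
    (hk : Kills f R) (hsec : ∀ x y, R x y x y ≤ 0) : ∃ A B : V → V → ℝ, SkewForm A ∧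
      SkewForm B ∧ OpNonneg (negT (addT (addT R (skewCurv A)) (skewCurv B))) := by
  have hb' := curv_bi hR
  set S : Fin 4 → Fin 4 → Fin 4 → Fin 4 → ℝ := fun i j k l => - R (f i) (f j) (f k) (f l) with hS
  have S12 : ∀ i j k l, S j i k l = - S i j k l := fun i j k l => by
    simp only [hS]
    rw [hb'.anti (f i) (f j)]
  have Sp : ∀ i j k l, S k l i j = S i j k l := fun i j k l => by
    simp only [hS]
    rw [hb'.pair (f i) (f j)]
  have S34 : ∀ i j k l, S i j l k = - S i j k l := fun i j k l => by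
    rw [← Sp i j l k, S12, Sp]
  obtain ⟨t, ht⟩ := Pool.Agent.W975.HD.tho S S12 Sp (fun a b => by
    simp only [hS]
    rw [S4_sec hb' hf hk]
    have := hsec (∑ i, a i • f i) (∑ j, b j • f j)
    linarith)
  have e12 : ∀ i j k l, eps j i k l = - eps i j k l := fun i j k l => by
    have := vol_basis hf (-1) i j k l
    have h2 := vol_basis hf (-1) j i k l
    rw [(vol_four f (-1)).anti (f i) (f j), this] at h2
    linarith
  have e34 : ∀ i j k l, eps i j l k = - eps i j k l := fun i j k l => by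
    have := vol_basis hf (-1) i j k l
    have h2 := vol_basis hf (-1) i j l k
    rw [biAnti (vol_four f (-1)).toBiForm (f i) (f j), this] at h2
    linarith
  have hq : ∀ y : I6 → ℝ, 0 ≤ qf (T6 S) y + t * hb y y := by
    intro y
    have h1 := ht (lift y) (lift_skew y)
    rw [quad (K := fun i j k l => S i j k l + t * eps i j k l)
      (fun i j k l => by rw [S12, e12]; ring) (fun i j k l => by rw [S34, e34]; ring)
      (lift_skew y)] at h1
    have h2 : T6 (fun i j k l => S i j k l + t * eps i j k l) = T6 S + t • Em := by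
      rw [← T6_eps]
      ext p q
      simp only [T6, Matrix.of_apply, Matrix.add_apply, Matrix.smul_apply, smul_eq_mul]
    rw [h2, qf_add_hb] at h1
    have h3 : (fun p => lift y (P1 p) (P2 p)) = y := funext fun p => lift_coord y p
    rw [h3] at h1
    linarith
  have hTs : ∀ p q, T6 S p q = T6 S q p := fun p q => by
    simp only [T6, Matrix.of_apply]
    exact (Sp _ _ _ _).symm
  have htr : ∑ p, T6 S p (sw p) = 0 := by
    simp only [Fintype.sum_prod_type, Fin.sum_univ_three, Fintype.sum_bool, T6, Matrix.of_apply,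
      sw, Bool.not_true, Bool.not_false, P1, P2]
    have b1 := hR.bianchi (f 0) (f 1) (f 2) (f 3)
    have b2 : S 0 1 2 3 + S 1 2 0 3 + S 2 0 1 3 = 0 := by
      simp only [hS]
      linarith
    have c1 := Sp 0 1 2 3
    have c2 := Sp 1 2 0 3
    have c3 : S 0 2 3 1 = S 2 0 1 3 := by rw [S34, S12]; ring
    have c4 := Sp 0 2 3 1
    linarith
  obtain ⟨u₁, u₂, τ, hu, hτ⟩ := two_vectors hTs htr hq
  set c : ℝ := 1 / Real.sqrt 3 with hc
  have hc2 : c ^ 2 = 1 / 3 := by
    rw [hc, div_pow, one_pow, Real.sq_sqrt (by norm_num)]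
  refine ⟨sform f c u₁, sform f c u₂, sform_skew f c u₁, sform_skew f c u₂, ?_⟩
  have hKb : BiForm (negT (addT (addT R (skewCurv (sform f c u₁))) (skewCurv (sform f c u₂)))) :=
    Pool.Agent.W150.HD.neg_bi (Pool.Agent.W150.HD.add_bi (Pool.Agent.W150.HD.add_bi hb'
      (curv_bi (sform_skew f c u₁).curv)) (curv_bi (sform_skew f c u₂).curv))
  refine op_nonneg_of hKb hf ?_ fun X hX => ?_
  · intro x hx y z w
    simp only [negT, addT, skewCurv, hk x hx y z w, sform_zero c u₁ hx, sform_zero c u₂ hx]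
    ring
  · have h1 : ∀ i j k l, negT (addT (addT R (skewCurv (sform f c u₁)))
        (skewCurv (sform f c u₂))) (f i) (f j) (f k) (f l) =
        S i j k l - (1 / 3) * (sc4 (lift u₁) i j k l + sc4 (lift u₂) i j k l) := by
      intro i j k l
      simp only [negT, addT, skewCurv, sform_basis hf, sc4, hS]
      linear_combination (-(2 * (lift u₁ i j * lift u₁ k l) + lift u₁ i k * lift u₁ j l -
        lift u₁ i l * lift u₁ j k) - (2 * (lift u₂ i j * lift u₂ k l) + lift u₂ i k * lift u₂ j l -
        lift u₂ i l * lift u₂ j k)) * hc2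
    simp only [h1]
    have k12 : ∀ (u : I6 → ℝ) (i j k l : Fin 4), sc4 (lift u) j i k l = - sc4 (lift u) i j k l := by
      intro u i j k l
      simp only [sc4, lift_skew u i j]
      ring
    have k34 : ∀ (u : I6 → ℝ) (i j k l : Fin 4), sc4 (lift u) i j l k = - sc4 (lift u) i j k l := by
      intro u i j k l
      simp only [sc4, lift_skew u k l]
      ring
    rw [quad (K := fun i j k l => S i j k l - (1 / 3) * (sc4 (lift u₁) i j k l +
      sc4 (lift u₂) i j k l)) (fun i j k l => by rw [S12, k12 u₁, k12 u₂]; ring)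
      (fun i j k l => by rw [S34, k34 u₁, k34 u₂]; ring) hX]
    set x : I6 → ℝ := fun p => X (P1 p) (P2 p) with hx
    have h2 : qf (T6 fun i j k l => S i j k l - (1 / 3) * (sc4 (lift u₁) i j k l +
        sc4 (lift u₂) i j k l)) x = qf (T6 S) x - (1 / 3) * (qf (T6 (sc4 (lift u₁))) x +
        qf (T6 (sc4 (lift u₂))) x) := by
      unfold qf
      simp only [T6, Matrix.of_apply, sub_mul, Finset.sum_sub_distrib, mul_add, add_mul,
        Finset.sum_add_distrib, Finset.mul_sum, mul_assoc]
    rw [h2, qf_sc4, qf_sc4]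
    have h3 := hu x
    have h4 : (hb u₁ u₁ + hb u₂ u₂) * hb x x = 6 * τ * hb x x := by rw [hτ]
    nlinarith [h3, h4]

omit [NormedAddCommGroup V] [InnerProductSpace ℝ V] in
theorem op_add {K L : V → V → V → V → ℝ} (hK : OpNonneg K) (hL : OpNonneg L) :
    OpNonneg (addT K L) := by
  intro n x y
  have h1 := hK n x y
  have h2 := hL n x y
  simp only [addT, Finset.sum_add_distrib]
  linarith

theorem zero_skew : SkewForm (fun _ _ : V => (0 : ℝ)) :=
  ⟨fun _ _ _ => by simp, fun _ _ _ => by simp, fun _ _ => by simp⟩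

/-- Sums of a nonpositively curved piece of dimension at most four and a nonpositive curvature
operator satisfy the hypothesis. -/
theorem sum_twoSkew {m : ℕ} (e : OrthonormalBasis (Fin m × Bool) ℝ V)
    {R₁ R₂ : V → V → V → V → ℝ} (W : Submodule ℝ V) (h₁ : AlgCurv R₁)
    (hW : Module.finrank ℝ W ≤ 4) (hL : LivesOn W R₁) (hsec : ∀ x y, R₁ x y x y ≤ 0) {δ : ℝ}
    (hn : OpNonneg (negT (addT R₂ fun x y z w => δ * unitT x y z w))) :
    TwoSkew δ (addT R₁ R₂) := by
  have key : (∃ A B : V → V → ℝ, SkewForm A ∧ SkewForm B ∧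
      OpNonneg (negT (addT (addT R₁ (skewCurv A)) (skewCurv B)))) → TwoSkew δ (addT R₁ R₂) := by
    rintro ⟨A, B, hA, hB, h⟩
    refine ⟨A, B, hA, hB, ?_⟩
    have h2 := op_add h hn
    have h3 : addT (negT (addT (addT R₁ (skewCurv A)) (skewCurv B)))
        (negT (addT R₂ fun x y z w => δ * unitT x y z w)) =
        negT (addT (addT (addT (addT R₁ R₂) fun x y z w => δ * unitT x y z w) (skewCurv A))
          (skewCurv B)) := by
      funext x y z w
      simp only [addT, negT]
      ring
    rwa [h3] at h2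
  apply key
  rcases Nat.lt_or_ge m 2 with hm | hm
  · refine ⟨_, _, zero_skew, zero_skew, ?_⟩
    have h0 : negT (addT (addT R₁ (skewCurv fun _ _ : V => (0 : ℝ)))
        (skewCurv fun _ _ : V => (0 : ℝ))) = negT R₁ := by
      funext x y z w
      simp [negT, addT, skewCurv]
    rw [h0]
    interval_cases m
    · intro n x y
      have hs : ∀ v : V, v = 0 := by
        intro v
        rw [← e.sum_repr v]
        exact sum_eq_zero fun i _ => i.1.elim0
      refine sum_nonneg fun a _ => sum_nonneg fun b _ => ?_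
      rw [hs (x a), zeroK (Pool.Agent.W150.HD.neg_bi (curv_bi h₁))]
    · refine two_dim e (Pool.Agent.W150.HD.neg_bi (curv_bi h₁)) ?_
      have := hsec (e (0, false)) (e (0, true))
      simp only [negT]; linarith
  · obtain ⟨e', r, hr, hrW⟩ := Pool.Agent.W688.HD.adb m V e W hm hW
    have hf : Orthonormal ℝ fun i => e' (r i) := e'.orthonormal.comp r hr
    have hWf : ∀ x, (∀ i, inner ℝ (e' (r i)) x = 0) → x ∈ Wᗮ := by
      intro x hx
      rw [← e'.sum_repr x]
      refine Submodule.sum_mem _ fun j _ => ?_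
      by_cases hj : ∃ i, r i = j
      · obtain ⟨i, rfl⟩ := hj
        rw [e'.repr_apply_apply, hx i, zero_smul]
        exact Submodule.zero_mem _
      · exact Submodule.smul_mem _ _ (hrW j fun i hi => hj ⟨i, hi⟩)
    exact piece _ hf h₁ (fun x hx => hL x (hWf x hx)) hsec

end vec

end Pool.Agent.Y195.HF
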