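import Mathlib.MeasureTheory.Integral.Gamma
import Mathlib.MeasureTheory.Integral.Pi
import Mathlib.Analysis.SpecialFunctions.Gaussian.GaussianIntegral
import Mathlib.Data.Nat.Choose.Multinomial
import Mathlib.MeasureTheory.Measure.Lebesgue.Integral

/-!
# A sum of squares as a Gaussian mean of even powers
-/

set_option autoImplicit false

namespace Pool.Agent.Y195.HF

open MeasureTheory Finset

/-- Gaussian moment -/
noncomputable def gmom (k : ℕ) : ℝ := ∫ t : ℝ, t ^ k * Real.exp (-t ^ 2)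

theorem gint (k : ℕ) : Integrable (fun t : ℝ => t ^ k * Real.exp (-t ^ 2)) := by
  have h := integrable_rpow_mul_exp_neg_mul_sq (b := 1) one_pos (s := (k : ℝ))
    (by have : (0 : ℝ) ≤ k := Nat.cast_nonneg k
        linarith)
  simpa [Real.rpow_natCast] using h

theorem gmom_even (j : ℕ) :
    gmom (2 * j) = (2 * j).factorial / (4 ^ j * j.factorial) * Real.sqrt Real.pi := by
  have h1 : gmom (2 * j) = 2 * ∫ t in Set.Ioi (0 : ℝ), t ^ (2 * j) * Real.exp (-t ^ 2) := by
    rw [← integral_comp_abs (f := fun t : ℝ => t ^ (2 * j) * Real.exp (-t ^ 2))]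
    unfold gmom
    refine integral_congr_ae (Filter.Eventually.of_forall fun t => ?_)
    simp only [pow_mul, sq_abs]
  have h2 := integral_rpow_mul_exp_neg_rpow (p := 2) (q := ((2 * j : ℕ) : ℝ)) two_pos
    (by have : (0 : ℝ) ≤ ((2 * j : ℕ) : ℝ) := Nat.cast_nonneg _
        linarith)
  have h3 : ∫ t in Set.Ioi (0 : ℝ), t ^ (2 * j) * Real.exp (-t ^ 2) =
      (1 / 2) * Real.Gamma ((((2 * j : ℕ) : ℝ) + 1) / 2) := by
    rw [← h2]
    refine setIntegral_congr_fun measurableSet_Ioi fun t _ => ?_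
    simp only [Real.rpow_natCast, Real.rpow_ofNat]
  have h4 : (((2 * j : ℕ) : ℝ) + 1) / 2 = (j : ℝ) + 1 / 2 := by push_cast; ring
  rw [h1, h3, h4]
  have h5 : ∀ j : ℕ, Real.Gamma ((j : ℝ) + 1 / 2) =
      (2 * j).factorial / (4 ^ j * j.factorial) * Real.sqrt Real.pi := by
    intro j
    induction j with
    | zero => simp [-one_div, Real.Gamma_one_half_eq]
    | succ j ih =>
      have h6 : (((j + 1 : ℕ) : ℝ) + 1 / 2) = ((j : ℝ) + 1 / 2) + 1 := by push_cast; ring
      rw [h6, Real.Gamma_add_one (by positivity), ih]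
      have h7 : (2 * (j + 1)).factorial = (2 * j + 2) * ((2 * j + 1) * (2 * j).factorial) := by
        rw [show 2 * (j + 1) = (2 * j + 1) + 1 by ring, Nat.factorial_succ, Nat.factorial_succ]
      rw [h7, Nat.factorial_succ]
      push_cast
      field_simp
      ring
  rw [h5]
  ring

theorem gmom_odd {k : ℕ} (hk : Odd k) : gmom k = 0 := by
  have h1 : gmom k = ∫ t : ℝ, -(t ^ k * Real.exp (-t ^ 2)) := by
    have h2 := integral_neg_eq_self (fun t : ℝ => t ^ k * Real.exp (-t ^ 2)) volume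
    unfold gmom
    rw [← h2]
    refine integral_congr_ae (Filter.Eventually.of_forall fun t => ?_)
    simp only [hk.neg_pow, neg_sq, neg_mul]
  rw [integral_neg] at h1
  have : gmom k = - gmom k := h1
  linarith

theorem gauss_pos {ι : Type} [Fintype ι] [DecidableEq ι] {R : Type} [CommRing R] [Algebra ℝ R]
    (x : ι → R) (T : R) (L : R →ₗ[ℝ] ℝ) (N : ℕ)
    (h : ∀ ξ : ι → ℝ, 0 ≤ L ((∑ i, ξ i • x i) ^ (2 * N) * T)) :
    0 ≤ L ((∑ i, x i ^ 2) ^ N * T) := by
  have hexp : ∀ ξ : ι → ℝ, L ((∑ i, ξ i • x i) ^ (2 * N) * T) =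
      ∑ k ∈ piAntidiag (univ : Finset ι) (2 * N),
        ((Nat.multinomial univ k : ℝ) * L ((∏ i, x i ^ k i) * T)) * ∏ i, ξ i ^ k i := by
    intro ξ
    rw [Finset.sum_pow_eq_sum_piAntidiag, Finset.sum_mul, map_sum]
    refine Finset.sum_congr rfl fun k _ => ?_
    have h1 : (Nat.multinomial univ k : R) * (∏ i, (ξ i • x i) ^ k i) * T =
        ((Nat.multinomial univ k : ℝ) * ∏ i, ξ i ^ k i) • ((∏ i, x i ^ k i) * T) := by
      simp only [Algebra.smul_def, mul_pow, Finset.prod_mul_distrib, map_mul, map_natCast,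
        map_prod, map_pow]
      ring
    rw [h1, map_smul, smul_eq_mul]
    ring
  have hint : ∀ k : ι → ℕ, Integrable (fun ξ : ι → ℝ => ∏ i, (ξ i ^ k i * Real.exp (-ξ i ^ 2)))
      (Measure.pi fun _ => (volume : Measure ℝ)) := fun k =>
    Integrable.fintype_prod (f := fun i t => t ^ k i * Real.exp (-t ^ 2)) fun i => gint (k i)
  have hI : (0 : ℝ) ≤ ∫ ξ : ι → ℝ, L ((∑ i, ξ i • x i) ^ (2 * N) * T) *
      ∏ i, Real.exp (-ξ i ^ 2) ∂(Measure.pi fun _ => (volume : Measure ℝ)) :=
    integral_nonneg fun ξ => mul_nonneg (h ξ) (Finset.prod_nonneg fun i _ => (Real.exp_pos _).le)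
  have hI2 : ∫ ξ : ι → ℝ, L ((∑ i, ξ i • x i) ^ (2 * N) * T) *
      ∏ i, Real.exp (-ξ i ^ 2) ∂(Measure.pi fun _ => (volume : Measure ℝ)) =
      ∑ k ∈ piAntidiag (univ : Finset ι) (2 * N),
        ((Nat.multinomial univ k : ℝ) * L ((∏ i, x i ^ k i) * T)) * ∏ i, gmom (k i) := by
    have h1 : ∀ ξ : ι → ℝ, L ((∑ i, ξ i • x i) ^ (2 * N) * T) * ∏ i, Real.exp (-ξ i ^ 2) =
        ∑ k ∈ piAntidiag (univ : Finset ι) (2 * N),
          ((Nat.multinomial univ k : ℝ) * L ((∏ i, x i ^ k i) * T)) *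
            ∏ i, (ξ i ^ k i * Real.exp (-ξ i ^ 2)) := by
      intro ξ
      rw [hexp, Finset.sum_mul]
      refine Finset.sum_congr rfl fun k _ => ?_
      rw [Finset.prod_mul_distrib]
      ring
    simp only [h1]
    rw [integral_finsetSum _ fun k _ => (hint k).const_mul _]
    refine Finset.sum_congr rfl fun k _ => ?_
    rw [integral_const_mul, integral_fintype_prod_eq_prod (𝕜 := ℝ)
      (f := fun i t => t ^ k i * Real.exp (-t ^ 2))]
    rfl
  rw [hI2] at hI
  -- only even exponents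
  have hev : ∑ k ∈ piAntidiag (univ : Finset ι) (2 * N),
        ((Nat.multinomial univ k : ℝ) * L ((∏ i, x i ^ k i) * T)) * ∏ i, gmom (k i) =
      ∑ j ∈ piAntidiag (univ : Finset ι) N,
        ((Nat.multinomial univ (2 • j) : ℝ) * L ((∏ i, x i ^ ((2 • j) i)) * T)) *
          ∏ i, gmom ((2 • j) i) := by
    have h1 : ∑ k ∈ {f ∈ piAntidiag (univ : Finset ι) (2 * N) | ∀ i, 2 ∣ f i},
        ((Nat.multinomial univ k : ℝ) * L ((∏ i, x i ^ k i) * T)) * ∏ i, gmom (k i) =
        ∑ k ∈ piAntidiag (univ : Finset ι) (2 * N),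
        ((Nat.multinomial univ k : ℝ) * L ((∏ i, x i ^ k i) * T)) * ∏ i, gmom (k i) := by
      refine Finset.sum_subset (Finset.filter_subset _ _) fun k hk hk' => ?_
      have h2 : ∃ i, ¬ 2 ∣ k i := by
        by_contra hc
        push Not at hc
        exact hk' (Finset.mem_filter.mpr ⟨hk, hc⟩)
      obtain ⟨i, hi⟩ := h2
      have h3 : ∏ i, gmom (k i) = 0 := by
        refine Finset.prod_eq_zero (Finset.mem_univ i) (gmom_odd ?_)
        exact Nat.not_even_iff_odd.mp fun he => hi he.two_dvd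
      rw [h3, mul_zero]
    rw [← h1, ← Finset.map_nsmul_piAntidiag_univ N two_ne_zero, Finset.sum_map]
    rfl
  rw [hev] at hI
  have hfin : ∑ j ∈ piAntidiag (univ : Finset ι) N,
        ((Nat.multinomial univ (2 • j) : ℝ) * L ((∏ i, x i ^ ((2 • j) i)) * T)) *
          ∏ i, gmom ((2 • j) i) =
      ((2 * N).factorial / (4 ^ N * N.factorial) * Real.sqrt Real.pi ^ Fintype.card ι) *
        L ((∑ i, x i ^ 2) ^ N * T) := by
    rw [Finset.sum_pow_eq_sum_piAntidiag, Finset.sum_mul, map_sum, Finset.mul_sum]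
    refine Finset.sum_congr rfl fun j hj => ?_
    have hj' : ∑ i, j i = N := (Finset.mem_piAntidiag.mp hj).1
    have h1 : (Nat.multinomial univ j : R) * (∏ i, (x i ^ 2) ^ j i) * T =
        (Nat.multinomial univ j : ℝ) • ((∏ i, x i ^ ((2 • j) i)) * T) := by
      have h0 : ∀ i, (2 • j) i = 2 * j i := fun i => by simp
      simp only [h0, Algebra.smul_def, map_natCast, pow_mul]
      ring
    rw [h1, map_smul, smul_eq_mul]
    have h2 : ∏ i, gmom ((2 • j) i) =
        (∏ i, ((2 * j i).factorial / (4 ^ j i * (j i).factorial) : ℝ)) *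
          Real.sqrt Real.pi ^ Fintype.card ι := by
      simp only [Pi.smul_apply, smul_eq_mul, gmom_even, Finset.prod_mul_distrib, Finset.prod_const,
        Finset.card_univ]
    have h3 : (∏ i, ((2 * j i).factorial / (4 ^ j i * (j i).factorial) : ℝ)) =
        (∏ i, ((2 * j i).factorial : ℝ)) / (4 ^ N * ∏ i, ((j i).factorial : ℝ)) := by
      rw [Finset.prod_div_distrib, Finset.prod_mul_distrib, Finset.prod_pow_eq_pow_sum, hj']
    have h4 : (∏ i, ((2 * j i).factorial : ℝ)) * (Nat.multinomial univ (2 • j) : ℝ) =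
        (2 * N).factorial := by
      have := Nat.multinomial_spec (univ : Finset ι) (2 • j)
      have h5 : ∑ i, (2 • j) i = 2 * N := by
        simp only [Pi.smul_apply, smul_eq_mul]
        rw [← Finset.mul_sum, hj']
      rw [h5] at this
      rw [← this]
      push_cast
      rfl
    have h5 : (∏ i, ((j i).factorial : ℝ)) * (Nat.multinomial univ j : ℝ) = N.factorial := by
      have := Nat.multinomial_spec (univ : Finset ι) j
      rw [hj'] at this
      rw [← this]
      push_cast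
      rfl
    have h6 : (0 : ℝ) < ∏ i, ((j i).factorial : ℝ) :=
      Finset.prod_pos fun i _ => by positivity
    have h7 : (0 : ℝ) < Nat.multinomial univ j := by
      exact_mod_cast Nat.multinomial_pos _ _
    rw [h2, h3, ← h4, ← h5]
    field_simp
  rw [hfin] at hI
  have hc : (0 : ℝ) < (2 * N).factorial / (4 ^ N * N.factorial) *
      Real.sqrt Real.pi ^ Fintype.card ι := by
    have := Real.sqrt_pos.mpr Real.pi_pos
    positivity
  exact nonneg_of_mul_nonneg_right hI hc

end Pool.Agent.Y195.HF
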