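import Pool.Agent.Y195.HF.Main
import Pool.Agent.W669.HD.TwoRes
import Pool.Agent.W654.HD.EX

/-!
# Three skew forms in dimension six
-/

set_option autoImplicit false

namespace Pool.Agent.Y195.HF

open Pool.Agent.W666.GB Pool.Agent.W669.HD Finset

theorem AA_skew (s : Fin 3) : SkewForm (AA s) :=
  ⟨AA_add s, AA_smul s, AA_anti s⟩

theorem RR_eq (s : Fin 3) (x y z w : E6) : RR s x y z w = - skewCurv (AA s) x y z w := by
  simp only [RR, skewCurv]
  rw [AA_anti s x z]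
  ring

theorem three_fail : ∃ R : E6 → E6 → E6 → E6 → ℝ, AlgCurv R ∧
    (∃ A : Fin 3 → E6 → E6 → ℝ, (∀ s, SkewForm (A s)) ∧
      ∀ x y z w, R x y z w = - ∑ s, skewCurv (A s) x y z w) ∧
    ∀ e : OrthonormalBasis (Fin 3 × Bool) ℝ E6, (-1) ^ 3 * gbc e R < 0 := by
  have hR : AlgCurv (addT (addT (RR 0) (RR 1)) (RR 2)) :=
    add_curv (add_curv (RR_curv 0) (RR_curv 1)) (RR_curv 2)
  refine ⟨addT (addT (RR 0) (RR 1)) (RR 2), hR, ⟨AA, AA_skew, ?_⟩, ?_⟩
  · intro x y z w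
    simp only [addT, RR_eq, Fin.sum_univ_three]
    ring
  · intro e
    set e₀ : OrthonormalBasis (Fin 3 × Bool) ℝ E6 := EuclideanSpace.basisFun _ ℝ with he₀
    rw [Pool.Agent.W688.HD.bas 3 E6 e e₀ _ hR, gbc_eq]
    have hπ := Real.pi_pos
    have hc : 0 < 1 / ((8 * Real.pi) ^ 3 * (Nat.factorial 3 : ℝ)) := by positivity
    refine mul_neg_of_pos_of_neg hc ?_
    have hcp : (fun _ : Fin 3 => cp e₀ (negT (addT (addT (RR 0) (RR 1)) (RR 2)))) =
        fun _ : Fin 3 => (fun i j k l => pr 0 i j k l + pr 1 i j k l + pr 2 i j k l : T4 3) := by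
      funext _ i j k l
      simp only [cp, negT, addT, RR, he₀, EuclideanSpace.basisFun_apply, AA_single, pr]
      ring
    rw [hcp]
    exact Pool.Agent.W654.HD.main

end Pool.Agent.Y195.HF
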