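import Pool.Agent.Y195.HF.Four
import Pool.Agent.Y195.HF.Sharp

/-!
# The hypothesis in dimension four
-/

set_option autoImplicit false

namespace Pool.Agent.Y195.HF

open Pool.Agent.W666.GB Pool.Agent.W669.HD Finset

variable {V : Type} [NormedAddCommGroup V] [InnerProductSpace ℝ V]

theorem TwoSkew.sec {δ : ℝ} {R : V → V → V → V → ℝ} (h : TwoSkew δ R) (x y : V) :
    R x y x y ≤ -(δ * unitT x y x y) := by
  obtain ⟨A, B, hA, hB, hn⟩ := h
  have h1 := hn 1 (fun _ => x) (fun _ => y)
  simp only [Finset.univ_unique, Finset.sum_const, Finset.card_singleton, one_smul, negT, addT,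
    skewCurv] at h1
  have a1 : A x x = 0 := by have := hA.anti x x; linarith
  have b1 : B x x = 0 := by have := hB.anti x x; linarith
  rw [a1, b1, hA.anti x y, hB.anti x y] at h1
  nlinarith [sq_nonneg (A x y), sq_nonneg (B x y)]

theorem four_iff (e : OrthonormalBasis (Fin 2 × Bool) ℝ V) {R : V → V → V → V → ℝ}
    (hR : AlgCurv R) (δ : ℝ) :
    TwoSkew δ R ↔ ∀ x y, R x y x y ≤ -(δ * unitT x y x y) := by
  constructor
  · intro h x y
    exact h.sec x y
  · intro h
    have hfin : Module.finrank ℝ V = 4 := by
      rw [Module.finrank_eq_card_basis e.toBasis]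
      simp
    have h1 : AlgCurv (addT R fun x y z w => δ * unitT x y z w) := add_curv hR (unit_curv δ)
    have h2 := sum_twoSkew e (R₁ := addT R fun x y z w => δ * unitT x y z w)
      (R₂ := fun x y z w => -δ * unitT x y z w) ⊤ h1 (by rw [finrank_top, hfin]) (by
        intro x hx y z w
        rw [Submodule.top_orthogonal_eq_bot, Submodule.mem_bot] at hx
        rw [hx]
        exact Pool.Agent.W150.HD.zeroK (Pool.Agent.W150.HD.curv_bi h1) y z w)
      (by
        intro x y
        have := h x y
        simp only [addT]
        linarith) (δ := δ) (by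
        intro n x y
        simp [negT, addT])
    have h3 : addT (addT R fun x y z w => δ * unitT x y z w) (fun x y z w => -δ * unitT x y z w) =
        R := by
      funext x y z w
      simp only [addT]
      ring
    rwa [h3] at h2

end Pool.Agent.Y195.HF
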