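import Pool.Agent.W669.HD.Sq
import Mathlib.Analysis.Matrix.Spectrum
import Mathlib.LinearAlgebra.FiniteDimensional.Lemmas
import Mathlib.Topology.Sequences
import Mathlib.Topology.MetricSpace.Bounded

/-!
# Linear algebra on the space of bivectors of a four-dimensional space
-/

set_option autoImplicit false

namespace Pool.Agent.Y195.HF

open Finset

/-- index set of the coordinates of bivectors -/
abbrev I6 := Fin 3 × Bool

/-- the complementary index -/
def sw (p : I6) : I6 := (p.1, !p.2)

theorem sw_sw (p : I6) : sw (sw p) = p := by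
  obtain ⟨k, b⟩ := p
  cases b <;> rfl

/-- the complementary index as a permutation -/
def swE : Equiv.Perm I6 := ⟨sw, sw, sw_sw, sw_sw⟩

/-- the wedge product of bivectors -/
def hb (x y : I6 → ℝ) : ℝ := ∑ p, x p * y (sw p)

theorem hb_comm (x y : I6 → ℝ) : hb x y = hb y x := by
  unfold hb
  rw [← Equiv.sum_comp swE]
  refine Finset.sum_congr rfl fun p _ => ?_
  show x (sw p) * y (sw (sw p)) = y p * x (sw p)
  rw [sw_sw, mul_comm]

/-- quadratic form of a matrix -/
def qf (S : Matrix I6 I6 ℝ) (x : I6 → ℝ) : ℝ := ∑ p, ∑ q, S p q * (x p * x q)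

/-- matrix of the wedge product -/
def Em : Matrix I6 I6 ℝ := Matrix.of fun p q => if q = sw p then 1 else 0

theorem mul_Em_mul (L : Matrix I6 I6 ℝ) (a b : I6) : (L * Em * L.transpose) a b = hb (L a) (L b) := by
  have h : (L * Em * L.transpose) a b = ∑ q, (∑ p, L a p * Em p q) * L b q := by
    simp only [Matrix.mul_apply, Matrix.transpose_apply]
  rw [h, hb_comm, hb]
  refine Finset.sum_congr rfl fun q _ => ?_
  rw [mul_comm]
  congr 1
  rw [Finset.sum_eq_single (sw q)]
  · simp [Em, sw_sw]
  · intro p _ hp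
    have : ¬ q = sw p := fun h => hp (by rw [h, sw_sw])
    simp [Em, this]
  · simp

theorem diag6 {K : Matrix I6 I6 ℝ} (hs : ∀ p q, K p q = K q p) (hn : ∀ x, 0 ≤ qf K x) :
    ∃ l : I6 → I6 → ℝ, (∀ p q, K p q = ∑ a, l a p * l a q) ∧
      ∀ a b, a ≠ b → hb (l a) (l b) = 0 := by
  obtain ⟨B, hB⟩ := Pool.Agent.W669.HD.sq_real K hs hn
  have hKB : K = B.transpose * B := by
    ext p q
    rw [hB p q, Matrix.mul_apply]
    rfl
  have hEt : Em.transpose = Em := by
    ext p q
    simp only [Em, Matrix.transpose_apply, Matrix.of_apply]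
    congr 1
    apply propext
    constructor
    · intro h; rw [h, sw_sw]
    · intro h; rw [h, sw_sw]
  set M : Matrix I6 I6 ℝ := B * Em * B.transpose with hM
  have hMh : M.IsHermitian := by
    show M.conjTranspose = M
    rw [Matrix.conjTranspose_eq_transpose_of_trivial, hM]
    simp only [Matrix.transpose_mul, Matrix.transpose_transpose, hEt, Matrix.mul_assoc]
  set U : Matrix I6 I6 ℝ := (hMh.eigenvectorUnitary : Matrix I6 I6 ℝ) with hU
  have hU1 : U * U.transpose = 1 := by
    have := Matrix.mem_unitaryGroup_iff.mp hMh.eigenvectorUnitary.2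
    rw [Matrix.star_eq_conjTranspose, Matrix.conjTranspose_eq_transpose_of_trivial] at this
    exact this
  have hU2 : U.transpose * M * U = Matrix.diagonal hMh.eigenvalues := by
    have := hMh.conjStarAlgAut_star_eigenvectorUnitary
    rw [Unitary.conjStarAlgAut_star_apply, Matrix.star_eq_conjTranspose,
      Matrix.conjTranspose_eq_transpose_of_trivial] at this
    exact this
  refine ⟨U.transpose * B, ?_, ?_⟩
  · intro p q
    have h : K = (U.transpose * B).transpose * (U.transpose * B) := by
      rw [Matrix.transpose_mul, Matrix.transpose_transpose, Matrix.mul_assoc,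
        ← Matrix.mul_assoc U, hU1, Matrix.one_mul]
      exact hKB
    conv_lhs => rw [h, Matrix.mul_apply]
    rfl
  · intro a b hab
    rw [← mul_Em_mul]
    have h : U.transpose * B * Em * (U.transpose * B).transpose = U.transpose * M * U := by
      rw [hM, Matrix.transpose_mul, Matrix.transpose_transpose]
      simp only [Matrix.mul_assoc]
    rw [h, hU2, Matrix.diagonal_apply_ne _ hab]

theorem hb_self (x : I6 → ℝ) : hb x x = 2 * ∑ k, x (k, false) * x (k, true) := by
  unfold hb
  rw [Fintype.sum_prod_type, Finset.mul_sum]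
  refine Finset.sum_congr rfl fun k _ => ?_
  rw [Fintype.sum_bool]
  simp only [sw, Bool.not_true, Bool.not_false]
  ring

theorem hb_comb {n : ℕ} (c : Fin n → ℝ) (y : Fin n → I6 → ℝ) (h : ∀ i j, i ≠ j → hb (y i) (y j) = 0) :
    hb (fun p => ∑ i, c i * y i p) (fun p => ∑ i, c i * y i p) = ∑ i, c i ^ 2 * hb (y i) (y i) := by
  have h1 : hb (fun p => ∑ i, c i * y i p) (fun p => ∑ i, c i * y i p) =
      ∑ i, ∑ j, c i * c j * hb (y i) (y j) := by
    unfold hb
    simp only [Finset.sum_mul_sum]
    rw [Finset.sum_comm]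
    refine Finset.sum_congr rfl fun i _ => ?_
    rw [Finset.sum_comm]
    refine Finset.sum_congr rfl fun j _ => ?_
    rw [Finset.mul_sum]
    refine Finset.sum_congr rfl fun p _ => ?_
    ring
  rw [h1]
  refine Finset.sum_congr rfl fun i _ => ?_
  rw [Finset.sum_eq_single i]
  · ring
  · intro j _ hj
    rw [h i j (Ne.symm hj), mul_zero]
  · simp

/-- signature: there are no four orthogonal vectors of which three are positive and the last is
nonnegative -/
theorem sig {s : ℝ} (hs : s = 1 ∨ s = -1) (y : Fin 4 → I6 → ℝ)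
    (horth : ∀ i j, i ≠ j → hb (y i) (y j) = 0) (hpos : ∀ i, i ≠ 3 → 0 < s * hb (y i) (y i))
    (h3 : 0 ≤ s * hb (y 3) (y 3)) (h0 : y 3 ≠ 0) : False := by
  let f : (Fin 4 → ℝ) →ₗ[ℝ] (Fin 3 → ℝ) :=
    { toFun := fun c k => ∑ i, c i * (y i (k, false) + s * y i (k, true))
      map_add' := by
        intro c d
        funext k
        simp only [Pi.add_apply, add_mul, Finset.sum_add_distrib]
      map_smul' := by
        intro t c
        funext k
        simp only [Pi.smul_apply, smul_eq_mul, RingHom.id_apply, Finset.mul_sum, mul_assoc] }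
  have hk : LinearMap.ker f ≠ ⊥ := LinearMap.ker_ne_bot_of_finrank_lt (by simp)
  obtain ⟨c, hc, hc0⟩ := (Submodule.ne_bot_iff _).mp hk
  have hss : s * s = 1 := by rcases hs with h | h <;> rw [h] <;> norm_num
  set X : I6 → ℝ := fun p => ∑ i, c i * y i p with hX
  have hX1 : ∀ k, X (k, false) = - (s * X (k, true)) := by
    intro k
    have h1 : (f c) k = 0 := by rw [LinearMap.mem_ker.mp hc]; rfl
    have h2 : (f c) k = X (k, false) + s * X (k, true) := by
      show ∑ i, c i * (y i (k, false) + s * y i (k, true)) = _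
      simp only [hX, mul_add, Finset.sum_add_distrib, Finset.mul_sum]
      congr 1
      refine Finset.sum_congr rfl fun i _ => ?_
      ring
    linarith
  have hq1 : s * hb X X = -2 * ∑ k, X (k, true) ^ 2 := by
    rw [hb_self, Finset.mul_sum, Finset.mul_sum, Finset.mul_sum]
    refine Finset.sum_congr rfl fun k _ => ?_
    rw [hX1 k]
    linear_combination (-2 * X (k, true) ^ 2) * hss
  have hq2 : s * hb X X = ∑ i, c i ^ 2 * (s * hb (y i) (y i)) := by
    rw [hX, hb_comb c y horth, Finset.mul_sum]
    refine Finset.sum_congr rfl fun i _ => ?_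
    ring
  have hnn : ∀ i, 0 ≤ c i ^ 2 * (s * hb (y i) (y i)) := by
    intro i
    by_cases hi : i = 3
    · rw [hi]; exact mul_nonneg (sq_nonneg _) h3
    · exact mul_nonneg (sq_nonneg _) (hpos i hi).le
  have hsq : ∀ k, 0 ≤ X (k, true) ^ 2 := fun k => sq_nonneg _
  have hz1 : ∑ k, X (k, true) ^ 2 = 0 := by
    have h1 := Finset.sum_nonneg (s := univ) fun i _ => hnn i
    have h2 := Finset.sum_nonneg (s := univ) fun k _ => hsq k
    rw [← hq2, hq1] at h1
    linarith
  have hz2 : ∑ i, c i ^ 2 * (s * hb (y i) (y i)) = 0 := by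
    rw [← hq2, hq1, hz1, mul_zero]
  have hXt : ∀ k, X (k, true) = 0 := by
    intro k
    have := (Finset.sum_eq_zero_iff_of_nonneg fun k _ => hsq k).mp hz1 k (Finset.mem_univ k)
    exact pow_eq_zero_iff two_ne_zero |>.mp this
  have hX0 : ∀ p, X p = 0 := by
    rintro ⟨k, b⟩
    cases b
    · rw [hX1, hXt, mul_zero, neg_zero]
    · exact hXt k
  have hci : ∀ i, i ≠ 3 → c i = 0 := by
    intro i hi
    have := (Finset.sum_eq_zero_iff_of_nonneg fun i _ => hnn i).mp hz2 i (Finset.mem_univ i)
    rcases mul_eq_zero.mp this with h | h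
    · exact pow_eq_zero_iff two_ne_zero |>.mp h
    · exact absurd h (hpos i hi).ne'
  have hc3 : c 3 = 0 := by
    by_contra hne
    apply h0
    funext p
    have h1 := hX0 p
    simp only [hX] at h1
    rw [Finset.sum_eq_single 3] at h1
    · exact (mul_eq_zero.mp h1).resolve_left hne
    · intro i _ hi
      rw [hci i hi, zero_mul]
    · simp
  apply hc0
  funext i
  by_cases hi : i = 3
  · rw [hi]; exact hc3
  · exact hci i hi

end Pool.Agent.Y195.HF
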