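import Pool.Agent.Y195.HF.Lin6
import Mathlib.Analysis.Normed.Module.FiniteDimension
import Mathlib.Topology.Order.OrderClosed

/-!
# Two bivectors
-/

set_option autoImplicit false

namespace Pool.Agent.Y195.HF

open Finset

theorem qf_cont (S : Matrix I6 I6 ℝ) : Continuous (qf S) := by
  unfold qf
  fun_prop

theorem hb_cont : Continuous (fun x : I6 → ℝ => hb x x) := by
  unfold hb
  fun_prop

theorem qf_smul (S : Matrix I6 I6 ℝ) (c : ℝ) (x : I6 → ℝ) : qf S (c • x) = c ^ 2 * qf S x := by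
  unfold qf
  simp only [Finset.mul_sum, Pi.smul_apply, smul_eq_mul]
  refine Finset.sum_congr rfl fun p _ => Finset.sum_congr rfl fun q _ => ?_
  ring

theorem hb_smul (c : ℝ) (x : I6 → ℝ) : hb (c • x) (c • x) = c ^ 2 * hb x x := by
  unfold hb
  simp only [Finset.mul_sum, Pi.smul_apply, smul_eq_mul]
  refine Finset.sum_congr rfl fun p _ => ?_
  ring

theorem minT {S : Matrix I6 I6 ℝ} {s t : ℝ} (ht0 : 0 ≤ t)
    (ht : ∀ x, 0 ≤ qf S x + t * (s * hb x x)) : (∀ x, 0 ≤ qf S x) ∨ ∃ t₀ : ℝ, 0 < t₀ ∧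
      (∀ x, 0 ≤ qf S x + t₀ * (s * hb x x)) ∧
      ∃ w : I6 → ℝ, w ≠ 0 ∧ qf S w + t₀ * (s * hb w w) = 0 ∧ 0 ≤ s * hb w w := by
  set T : Set ℝ := {τ | 0 ≤ τ ∧ ∀ x, 0 ≤ qf S x + τ * (s * hb x x)} with hT
  have hTc : IsClosed T := by
    have h1 : T = Set.Ici 0 ∩ ⋂ x, {τ : ℝ | 0 ≤ qf S x + τ * (s * hb x x)} := by
      ext τ
      simp [hT]
    rw [h1]
    refine isClosed_Ici.inter (isClosed_iInter fun x => ?_)
    exact isClosed_le continuous_const (by fun_prop)
  have hTn : T.Nonempty := ⟨t, ht0, ht⟩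
  have hTb : BddBelow T := ⟨0, fun τ hτ => hτ.1⟩
  have hm := hTc.csInf_mem hTn hTb
  set t₀ := sInf T with ht₀
  rcases eq_or_lt_of_le hm.1 with h0 | h0
  · left
    intro x
    have := hm.2 x
    rw [← h0] at this
    linarith
  right
  refine ⟨t₀, h0, hm.2, ?_⟩
  have hex : ∀ n : ℕ, ∃ y : I6 → ℝ, y ∈ Metric.sphere (0 : I6 → ℝ) 1 ∧
      qf S y + (t₀ - t₀ / (n + 1)) * (s * hb y y) < 0 := by
    intro n
    have hn : (0 : ℝ) < n + 1 := by positivity
    have h1 : t₀ / (n + 1) ≤ t₀ := by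
      rw [div_le_iff₀ hn]
      nlinarith [Nat.cast_nonneg (α := ℝ) n]
    have h2 : t₀ - t₀ / (n + 1) ∉ T := by
      intro h
      have h3 := csInf_le hTb h
      have h4 : 0 < t₀ / (n + 1) := by positivity
      linarith
    have h3 : ∃ x, qf S x + (t₀ - t₀ / (n + 1)) * (s * hb x x) < 0 := by
      by_contra hc
      push Not at hc
      exact h2 ⟨by linarith, hc⟩
    obtain ⟨x, hx⟩ := h3
    have hx0 : x ≠ 0 := by
      rintro rfl
      simp [qf, hb] at hx
    have hxn : 0 < ‖x‖ := norm_pos_iff.mpr hx0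
    refine ⟨‖x‖⁻¹ • x, ?_, ?_⟩
    · rw [mem_sphere_zero_iff_norm, norm_smul, norm_inv, norm_norm, inv_mul_cancel₀ hxn.ne']
    · rw [qf_smul, hb_smul]
      have h4 : ‖x‖⁻¹ ^ 2 * qf S x + (t₀ - t₀ / (n + 1)) * (s * (‖x‖⁻¹ ^ 2 * hb x x)) =
          ‖x‖⁻¹ ^ 2 * (qf S x + (t₀ - t₀ / (n + 1)) * (s * hb x x)) := by ring
      rw [h4]
      exact mul_neg_of_pos_of_neg (by positivity) hx
  choose y hy hy' using hex
  obtain ⟨w, hw, φ, hφ, hlim⟩ := (isCompact_sphere (0 : I6 → ℝ) 1).tendsto_subseq hy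
  have hw0 : w ≠ 0 := by
    rintro rfl
    simp at hw
  have hq : Filter.Tendsto (fun n => qf S (y (φ n))) Filter.atTop (nhds (qf S w)) :=
    ((qf_cont S).tendsto w).comp hlim
  have hh : Filter.Tendsto (fun n => s * hb (y (φ n)) (y (φ n))) Filter.atTop
      (nhds (s * hb w w)) := ((hb_cont.tendsto w).comp hlim).const_mul s
  have hz : Filter.Tendsto (fun n : ℕ => t₀ / ((φ n : ℝ) + 1)) Filter.atTop (nhds 0) := by
    have h1 : Filter.Tendsto (fun n : ℕ => t₀ / ((n : ℝ) + 1)) Filter.atTop (nhds 0) := by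
      have := (tendsto_one_div_add_atTop_nhds_zero_nat (𝕜 := ℝ)).const_mul t₀
      simpa [div_eq_mul_inv] using this
    exact h1.comp hφ.tendsto_atTop
  refine ⟨w, hw0, ?_, ?_⟩
  · refine le_antisymm ?_ (hm.2 w)
    have h1 : Filter.Tendsto (fun n => qf S (y (φ n)) +
        (t₀ - t₀ / ((φ n : ℝ) + 1)) * (s * hb (y (φ n)) (y (φ n)))) Filter.atTop
        (nhds (qf S w + (t₀ - 0) * (s * hb w w))) :=
      hq.add ((tendsto_const_nhds.sub hz).mul hh)
    rw [sub_zero] at h1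
    exact le_of_tendsto h1 (Filter.Eventually.of_forall fun n => (hy' (φ n)).le)
  · refine ge_of_tendsto hh (Filter.Eventually.of_forall fun n => ?_)
    have h1 := hm.2 (y (φ n))
    have h2 := hy' (φ n)
    have h3 : 0 < t₀ / ((φ n : ℝ) + 1) := by positivity
    have h4 : 0 < t₀ / ((φ n : ℝ) + 1) * (s * hb (y (φ n)) (y (φ n))) := by nlinarith
    exact (pos_of_mul_pos_right h4 h3.le).le

/-- a bilinear pairing -/
def dt (x y : I6 → ℝ) : ℝ := ∑ p, x p * y p

theorem qf_sq {K : Matrix I6 I6 ℝ} {l : I6 → I6 → ℝ} (hK : ∀ p q, K p q = ∑ a, l a p * l a q)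
    (x : I6 → ℝ) : qf K x = ∑ a, dt (l a) x ^ 2 := by
  have h : ∀ a, dt (l a) x ^ 2 = ∑ p, ∑ q, l a p * l a q * (x p * x q) := by
    intro a
    rw [sq, dt, Finset.sum_mul_sum]
    refine Finset.sum_congr rfl fun p _ => Finset.sum_congr rfl fun q _ => ?_
    ring
  simp only [h, qf, hK, Finset.sum_mul]
  symm
  rw [Finset.sum_comm]
  refine Finset.sum_congr rfl fun p _ => ?_
  rw [Finset.sum_comm]

theorem qf_add_hb (S : Matrix I6 I6 ℝ) (c : ℝ) (x : I6 → ℝ) :
    qf (S + c • Em) x = qf S x + c * hb x x := by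
  have h : hb x x = ∑ p, ∑ q, Em p q * (x p * x q) := by
    unfold hb
    refine Finset.sum_congr rfl fun p _ => ?_
    rw [Finset.sum_eq_single (sw p)]
    · simp [Em]
    · intro q _ hq
      simp [Em, hq]
    · simp
  rw [h]
  unfold qf
  rw [Finset.mul_sum, ← Finset.sum_add_distrib]
  refine Finset.sum_congr rfl fun p _ => ?_
  rw [Finset.mul_sum, ← Finset.sum_add_distrib]
  refine Finset.sum_congr rfl fun q _ => ?_
  rw [Matrix.add_apply, Matrix.smul_apply, smul_eq_mul]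
  ring

theorem two_signed {S : Matrix I6 I6 ℝ} (hS : ∀ p q, S p q = S q p)
    (htr : ∑ p, S p (sw p) = 0) {s t : ℝ} (hs : s = 1 ∨ s = -1) (ht0 : 0 ≤ t)
    (ht : ∀ x, 0 ≤ qf S x + t * (s * hb x x)) :
    ∃ (u₁ u₂ : I6 → ℝ) (τ : ℝ), (∀ x, 0 ≤ qf S x + τ * hb x x - dt u₁ x ^ 2 - dt u₂ x ^ 2) ∧
      hb u₁ u₁ + hb u₂ u₂ = 6 * τ := by
  have hss : s * s = 1 := by rcases hs with h | h <;> rw [h] <;> norm_num
  rcases minT ht0 ht with h | ⟨t₀, h0, hn, w, hw0, hw1, hw2⟩
  · refine ⟨0, 0, 0, fun x => ?_, ?_⟩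
    · have := h x
      simp only [dt, Pi.zero_apply, zero_mul, Finset.sum_const_zero]
      linarith
    · simp [hb]
  set K : Matrix I6 I6 ℝ := S + (t₀ * s) • Em with hK
  have hqK : ∀ x, qf K x = qf S x + t₀ * (s * hb x x) := by
    intro x
    rw [hK, qf_add_hb]
    ring
  have hKs : ∀ p q, K p q = K q p := by
    intro p q
    simp only [hK, Matrix.add_apply, Matrix.smul_apply, hS p q, Em, Matrix.of_apply]
    have : (q = sw p) ↔ (p = sw q) := by
      constructor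
      · intro h; rw [h, sw_sw]
      · intro h; rw [h, sw_sw]
    simp only [this]
  obtain ⟨l, hl, horth⟩ := diag6 hKs fun x => by rw [hqK]; exact hn x
  -- the kernel vector
  have hlw : ∀ a, dt (l a) w = 0 := by
    intro a
    have h1 : ∑ a, dt (l a) w ^ 2 = 0 := by rw [← qf_sq hl, hqK, hw1]
    have := (Finset.sum_eq_zero_iff_of_nonneg fun a _ => sq_nonneg (dt (l a) w)).mp h1 a
      (Finset.mem_univ a)
    exact pow_eq_zero_iff two_ne_zero |>.mp this
  set w' : I6 → ℝ := fun p => w (sw p) with hw'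
  have hw'0 : w' ≠ 0 := by
    intro h
    apply hw0
    funext p
    have := congrFun h (sw p)
    simp only [hw', sw_sw] at this
    exact this
  have hw'l : ∀ a, hb (l a) w' = 0 := by
    intro a
    rw [← hlw a]
    unfold hb dt
    simp only [hw', sw_sw]
  have hw'w : hb w' w' = hb w w := by
    have e : hb w' w' = ∑ p, w p * w' p := by
      unfold hb
      rw [← Equiv.sum_comp swE]
      refine Finset.sum_congr rfl fun p _ => ?_
      show w (sw (sw p)) * w' (sw (sw p)) = _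
      rw [sw_sw]
    rw [e]
    rfl
  -- at most two positive ones
  set P : Finset I6 := univ.filter fun a => 0 < s * hb (l a) (l a) with hP
  have hPc : P.card ≤ 2 := by
    by_contra hc
    push Not at hc
    obtain ⟨a, ha, b, hb', c, hc', hab, hac, hbc⟩ := Finset.two_lt_card.mp hc
    simp only [hP, Finset.mem_filter, Finset.mem_univ, true_and] at ha hb' hc'
    refine sig hs ![l a, l b, l c, w'] ?_ ?_ ?_ hw'0
    · intro i j hij
      fin_cases i <;> fin_cases j <;> first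
        | exact absurd rfl hij
        | exact horth _ _ hab
        | exact horth _ _ hac
        | exact horth _ _ hbc
        | exact horth _ _ hab.symm
        | exact horth _ _ hac.symm
        | exact horth _ _ hbc.symm
        | exact hw'l _
        | exact (hb_comm _ _).trans (hw'l _)
    · intro i hi
      fin_cases i
      · exact ha
      · exact hb'
      · exact hc'
      · exact absurd rfl hi
    · show 0 ≤ s * hb w' w'
      rw [hw'w]; exact hw2
  -- the trace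
  have htrK : ∑ a, s * hb (l a) (l a) = 6 * t₀ := by
    have h1 : ∑ a, hb (l a) (l a) = ∑ p, K p (sw p) := by
      unfold hb
      rw [Finset.sum_comm]
      refine Finset.sum_congr rfl fun p _ => ?_
      rw [hl]
    have h2 : ∑ p, K p (sw p) = 6 * (t₀ * s) := by
      have : ∀ p, K p (sw p) = S p (sw p) + t₀ * s := by
        intro p
        simp [hK, Em]
      simp only [this, Finset.sum_add_distrib, htr, zero_add, Finset.sum_const, Finset.card_univ,
        Fintype.card_prod, Fintype.card_fin, Fintype.card_bool, nsmul_eq_mul]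
      norm_num
    rw [← Finset.mul_sum, h1, h2]
    linear_combination (6 * t₀) * hss
  set σ : ℝ := ∑ a ∈ P, s * hb (l a) (l a) with hσ
  have hσ1 : 6 * t₀ ≤ σ := by
    rw [← htrK, hσ, ← Finset.sum_filter_add_sum_filter_not univ
      (fun a => 0 < s * hb (l a) (l a))]
    have : ∑ a ∈ univ.filter (fun a => ¬ 0 < s * hb (l a) (l a)), s * hb (l a) (l a) ≤ 0 :=
      Finset.sum_nonpos fun a ha => not_lt.mp (Finset.mem_filter.mp ha).2
    linarith
  have hσ0 : 0 < σ := by linarith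
  set c : ℝ := Real.sqrt (6 * t₀ / σ) with hc
  have hc2 : c ^ 2 = 6 * t₀ / σ := Real.sq_sqrt (by positivity)
  have hc1 : c ^ 2 ≤ 1 := by
    rw [hc2, div_le_one hσ0]
    exact hσ1
  -- the two vectors
  have key : ∀ (u₁ u₂ : I6 → ℝ), (∀ x, dt u₁ x ^ 2 + dt u₂ x ^ 2 = ∑ a ∈ P, c ^ 2 * dt (l a) x ^ 2) →
      (hb u₁ u₁ + hb u₂ u₂ = ∑ a ∈ P, c ^ 2 * hb (l a) (l a)) →
      ∃ (u₁ u₂ : I6 → ℝ) (τ : ℝ), (∀ x, 0 ≤ qf S x + τ * hb x x - dt u₁ x ^ 2 - dt u₂ x ^ 2) ∧
      hb u₁ u₁ + hb u₂ u₂ = 6 * τ := by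
    intro u₁ u₂ h1 h2
    refine ⟨u₁, u₂, t₀ * s, fun x => ?_, ?_⟩
    · have h3 : qf S x + t₀ * s * hb x x = ∑ a, dt (l a) x ^ 2 := by
        rw [← qf_sq hl, hqK]; ring
      have h4 : ∑ a ∈ P, c ^ 2 * dt (l a) x ^ 2 ≤ ∑ a, dt (l a) x ^ 2 := by
        calc ∑ a ∈ P, c ^ 2 * dt (l a) x ^ 2 ≤ ∑ a ∈ P, dt (l a) x ^ 2 :=
              Finset.sum_le_sum fun a _ => by nlinarith [sq_nonneg (dt (l a) x)]
          _ ≤ ∑ a, dt (l a) x ^ 2 :=
              Finset.sum_le_sum_of_subset_of_nonneg (Finset.subset_univ P) fun a _ _ => sq_nonneg _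
      have h5 := h1 x
      linarith
    · rw [h2, ← Finset.mul_sum, hc2]
      have h3 : ∑ a ∈ P, hb (l a) (l a) = s * σ := by
        rw [hσ, Finset.mul_sum]
        refine Finset.sum_congr rfl fun a _ => ?_
        linear_combination (-(hb (l a) (l a))) * hss
      rw [h3]
      field_simp
  have hdt : ∀ a x, dt (c • l a) x = c * dt (l a) x := by
    intro a x
    unfold dt
    rw [Finset.mul_sum]
    refine Finset.sum_congr rfl fun p _ => ?_
    simp only [Pi.smul_apply, smul_eq_mul]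
    ring
  have hd0 : ∀ x, dt 0 x = 0 := by
    intro x
    simp [dt]
  have hb0 : hb (0 : I6 → ℝ) 0 = 0 := by simp [hb]
  have hcases : P.card = 0 ∨ P.card = 1 ∨ P.card = 2 := by omega
  rcases hcases with h | h | h
  · rw [Finset.card_eq_zero] at h
    rw [hσ, h, Finset.sum_empty] at hσ0
    exact absurd hσ0 (lt_irrefl 0)
  · obtain ⟨a, ha⟩ := Finset.card_eq_one.mp h
    refine key (c • l a) 0 (fun x => ?_) ?_
    · rw [ha, Finset.sum_singleton, hdt, hd0]; ring
    · rw [ha, Finset.sum_singleton, hb_smul, hb0]; ring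
  · obtain ⟨a, b, hab, ha⟩ := Finset.card_eq_two.mp h
    refine key (c • l a) (c • l b) (fun x => ?_) ?_
    · rw [ha, Finset.sum_pair hab, hdt, hdt]; ring
    · rw [ha, Finset.sum_pair hab, hb_smul, hb_smul]

theorem two_vectors {S : Matrix I6 I6 ℝ} (hS : ∀ p q, S p q = S q p)
    (htr : ∑ p, S p (sw p) = 0) {t : ℝ} (ht : ∀ x, 0 ≤ qf S x + t * hb x x) :
    ∃ (u₁ u₂ : I6 → ℝ) (τ : ℝ), (∀ x, 0 ≤ qf S x + τ * hb x x - dt u₁ x ^ 2 - dt u₂ x ^ 2) ∧
      hb u₁ u₁ + hb u₂ u₂ = 6 * τ := by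
  rcases le_total 0 t with h | h
  · exact two_signed hS htr (Or.inl rfl) h fun x => by rw [one_mul]; exact ht x
  · refine two_signed hS htr (s := -1) (t := -t) (Or.inr rfl) (by linarith) fun x => ?_
    have := ht x
    linarith

end Pool.Agent.Y195.HF
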