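import Pool.Agent.Y195.HF.Ext
import Mathlib.LinearAlgebra.Alternating.Basic
import Mathlib.GroupTheory.Perm.Sign

/-!
# Products of bivectors as alternating maps
-/

set_option autoImplicit false

namespace Pool.Agent.Y195.HF

open Finset

variable {M : Type} [AddCommGroup M] [Module ℂ M]

theorem bv_mul_zero {u v w z : M} (h : (u = w ∨ u = z) ∨ (v = w ∨ v = z)) :
    bv u v * bv w z = 0 := by
  rcases h with (h | h) | (h | h)
  · subst h
    rw [bv_swap v u, neg_mul, bv_mul_self_right, neg_zero]
  · subst h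
    rw [bv_swap v u, bv_swap u w, neg_mul_neg, bv_mul_self_right]
  · subst h
    exact bv_mul_self_right _ _ _
  · subst h
    rw [bv_swap v w, mul_neg, bv_mul_self_right, neg_zero]

variable {m : ℕ}

/-- product of bivectors -/
noncomputable def phi (u : Fin m × Bool → M) : Zc M :=
  ∏ b : Fin m, bv (u (b, false)) (u (b, true))

theorem phi_update (u : Fin m × Bool → M) (x : Fin m × Bool) (a : M) :
    phi (Function.update u x a) =
      (if x.2 = true then bv (u (x.1, false)) a else bv a (u (x.1, true))) *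
        ∏ b ∈ univ.erase x.1, bv (u (b, false)) (u (b, true)) := by
  obtain ⟨b₀, s⟩ := x
  rw [phi, ← Finset.mul_prod_erase univ _ (Finset.mem_univ b₀)]
  congr 1
  · cases s <;> simp
  · refine Finset.prod_congr rfl fun b hb => ?_
    have hb' : b ≠ b₀ := Finset.ne_of_mem_erase hb
    rw [Function.update_of_ne (by simp [hb']), Function.update_of_ne (by simp [hb'])]

theorem phi_zero {u : Fin m × Bool → M} {x y : Fin m × Bool} (h : u x = u y) (hxy : x ≠ y) :
    phi u = 0 := by
  obtain ⟨b, s⟩ := x
  obtain ⟨b', s'⟩ := y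
  by_cases hb : b = b'
  · subst hb
    have h1 : u (b, false) = u (b, true) := by
      cases s <;> cases s'
      · exact absurd rfl hxy
      · exact h
      · exact h.symm
      · exact absurd rfl hxy
    refine Finset.prod_eq_zero (Finset.mem_univ b) ?_
    rw [h1, bv_self]
  · rw [phi, ← Finset.mul_prod_erase univ _ (Finset.mem_univ b),
      ← Finset.mul_prod_erase (univ.erase b) _ (Finset.mem_erase.mpr ⟨Ne.symm hb,
        Finset.mem_univ b'⟩), ← mul_assoc]
    have h1 : bv (u (b, false)) (u (b, true)) * bv (u (b', false)) (u (b', true)) = 0 := by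
      refine bv_mul_zero ?_
      cases s <;> cases s'
      · exact Or.inl (Or.inl h)
      · exact Or.inl (Or.inr h)
      · exact Or.inr (Or.inl h)
      · exact Or.inr (Or.inr h)
    rw [h1, zero_mul]

/-- product of bivectors as an alternating map -/
noncomputable def phiA : M [⋀^(Fin m × Bool)]→ₗ[ℂ] Zc M where
  toFun := phi
  map_update_add' := by
    intro hd u x a a'
    have hd' : hd = instDecidableEqProd := Subsingleton.elim _ _
    subst hd'
    rw [phi_update, phi_update, phi_update, ← add_mul]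
    congr 1
    split_ifs
    · exact bv_add_right _ _ _
    · exact bv_add_left _ _ _
  map_update_smul' := by
    intro hd u x c a
    have hd' : hd = instDecidableEqProd := Subsingleton.elim _ _
    subst hd'
    rw [phi_update, phi_update, ← smul_mul_assoc]
    congr 1
    split_ifs
    · exact bv_smul_right _ _ _
    · exact bv_smul_left _ _ _
  map_eq_zero_of_eq' := fun _ _ _ h hxy => phi_zero h hxy

theorem phi_perm (u : Fin m × Bool → M) (σ : Equiv.Perm (Fin m × Bool)) :
    phi (u ∘ σ) = ((Equiv.Perm.sign σ : ℤ) : ℂ) • phi u := by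
  have h := (phiA (M := M) (m := m)).map_perm u σ
  have h1 : phiA (M := M) (u ∘ σ) = phi (u ∘ σ) := rfl
  have h2 : phiA (M := M) u = phi u := rfl
  rw [h1, h2] at h
  rw [h]
  rcases Int.units_eq_one_or (Equiv.Perm.sign σ) with h | h <;> simp [h]

/-- the two ways to write families of indices -/
def splitE (m : ℕ) (K : Type) :
    (Fin m → (K × K) × (K × K)) ≃ (Fin m × Bool → K) × (Fin m × Bool → K) where
  toFun c := (fun x => if x.2 = true then (c x.1).1.2 else (c x.1).1.1,
    fun x => if x.2 = true then (c x.1).2.2 else (c x.1).2.1)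
  invFun p b := ((p.1 (b, false), p.1 (b, true)), (p.2 (b, false), p.2 (b, true)))
  left_inv c := by
    funext b
    simp
  right_inv p := by
    obtain ⟨f, g⟩ := p
    refine Prod.ext (funext fun x => ?_) (funext fun x => ?_)
    · obtain ⟨b, s⟩ := x
      cases s <;> simp
    · obtain ⟨b, s⟩ := x
      cases s <;> simp

/-- complex tensors in components -/
abbrev C4 (m : ℕ) := Fin m × Bool → Fin m × Bool → Fin m × Bool → Fin m × Bool → ℂ

/-- mixed sum, complex -/
noncomputable def gmC (C : Fin m → C4 m) : ℂ :=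
  ∑ σ : Equiv.Perm (Fin m × Bool), ∑ τ : Equiv.Perm (Fin m × Bool),
    (((Equiv.Perm.sign σ : ℤ) : ℂ) * ((Equiv.Perm.sign τ : ℤ) : ℂ)) *
    ∏ b, C b (σ (b, false)) (σ (b, true)) (τ (b, false)) (τ (b, true))

/-- element of the exterior algebra defined by a tensor -/
noncomputable def el (ψ χ : Fin m × Bool → M) (C : C4 m) : Zc M :=
  ∑ i, ∑ j, ∑ k, ∑ l, C i j k l • (bv (ψ i) (ψ j) * bv (χ k) (χ l))

theorem sum_perms {N : Type} [AddCommMonoid N] (ψ : Fin m × Bool → M)
    (F : (Fin m × Bool → Fin m × Bool) → N) (h : ∀ f, phi (ψ ∘ f) = 0 → F f = 0) :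
    ∑ σ : Equiv.Perm (Fin m × Bool), F σ = ∑ f, F f := by
  refine Fintype.sum_of_injective (fun σ : Equiv.Perm (Fin m × Bool) =>
    (σ : Fin m × Bool → Fin m × Bool)) DFunLike.coe_injective _ _ ?_ fun _ => rfl
  intro f hf
  apply h
  have h1 : ¬ Function.Injective f := fun hi =>
    hf ⟨Equiv.ofBijective f (Finite.injective_iff_bijective.mp hi), rfl⟩
  simp only [Function.Injective, not_forall] at h1
  obtain ⟨x, y, hxy, hne⟩ := h1
  exact phi_zero (u := ψ ∘ f) (congrArg ψ hxy) hne

theorem prod_el (ψ χ : Fin m × Bool → M) (C : Fin m → C4 m) :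
    ∏ b, el ψ χ (C b) = gmC C • (phi ψ * phi χ) := by
  have h1 : ∀ b, el ψ χ (C b) = ∑ p : ((Fin m × Bool) × (Fin m × Bool)) ×
      ((Fin m × Bool) × (Fin m × Bool)), C b p.1.1 p.1.2 p.2.1 p.2.2 •
        (bv (ψ p.1.1) (ψ p.1.2) * bv (χ p.2.1) (χ p.2.2)) := by
    intro b
    rw [Fintype.sum_prod_type, Fintype.sum_prod_type]
    refine Finset.sum_congr rfl fun i _ => Finset.sum_congr rfl fun j _ => ?_
    exact (Fintype.sum_prod_type (fun y : (Fin m × Bool) × (Fin m × Bool) => C b i j y.1 y.2 •
      (bv (ψ i) (ψ j) * bv (χ y.1) (χ y.2)))).symm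
  simp only [h1]
  rw [Fintype.prod_sum, ← Equiv.sum_comp (splitE m (Fin m × Bool)).symm, Fintype.sum_prod_type]
  have h2 : ∀ f g : Fin m × Bool → Fin m × Bool,
      ∏ b, (C b ((splitE m (Fin m × Bool)).symm (f, g) b).1.1
          ((splitE m (Fin m × Bool)).symm (f, g) b).1.2
          ((splitE m (Fin m × Bool)).symm (f, g) b).2.1
          ((splitE m (Fin m × Bool)).symm (f, g) b).2.2 •
        (bv (ψ ((splitE m (Fin m × Bool)).symm (f, g) b).1.1)
          (ψ ((splitE m (Fin m × Bool)).symm (f, g) b).1.2) *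
        bv (χ ((splitE m (Fin m × Bool)).symm (f, g) b).2.1)
          (χ ((splitE m (Fin m × Bool)).symm (f, g) b).2.2))) =
      (∏ b, C b (f (b, false)) (f (b, true)) (g (b, false)) (g (b, true))) •
        (phi (ψ ∘ f) * phi (χ ∘ g)) := by
    intro f g
    simp only [splitE, Equiv.coe_fn_symm_mk]
    simp only [Algebra.smul_def, Finset.prod_mul_distrib, ← map_prod]
    rfl
  rw [Finset.sum_congr rfl fun f _ => Finset.sum_congr rfl fun g _ => h2 f g]
  rw [← sum_perms ψ (fun f => ∑ g : Fin m × Bool → Fin m × Bool,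
      (∏ b, C b (f (b, false)) (f (b, true)) (g (b, false)) (g (b, true))) •
        (phi (ψ ∘ f) * phi (χ ∘ g)))
      (fun f hf => Finset.sum_eq_zero fun g _ => by rw [hf, zero_mul, smul_zero]), gmC,
    Finset.sum_smul]
  refine Finset.sum_congr rfl fun σ _ => ?_
  rw [← sum_perms χ (fun g =>
      (∏ b, C b (σ (b, false)) (σ (b, true)) (g (b, false)) (g (b, true))) •
        (phi (ψ ∘ σ) * phi (χ ∘ g)))
      (fun g hg => by rw [hg, mul_zero, smul_zero]), Finset.sum_smul]
  refine Finset.sum_congr rfl fun τ _ => ?_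
  rw [phi_perm, phi_perm, smul_mul_smul_comm, smul_smul, mul_comm]

end Pool.Agent.Y195.HF
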