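import Pool.Agent.Y195.HF.Act
import Pool.Agent.Y195.HF.Gauss
import Mathlib.Algebra.Group.Submonoid.Basic
import Mathlib.LinearAlgebra.Matrix.ToLinearEquiv
import Mathlib.Analysis.Complex.Polynomial.Basic

/-!
# Positivity
-/

set_option autoImplicit false

namespace Pool.Agent.Y195.HF

open Finset

variable {m : ℕ}

section cone

/-- conjugate matrix -/
noncomputable def cj (A : Mt m) : Mt m := fun i j => (starRingEnd ℂ) (A i j)

/-- alternating sum of a product of matrix entries -/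
noncomputable def lam (A : Fin m → Mt m) : ℂ :=
  ∑ σ : Equiv.Perm (Fin m × Bool), ((Equiv.Perm.sign σ : ℤ) : ℂ) *
    ∏ b, A b (σ (b, false)) (σ (b, true))

theorem gmC_mul (A B : Fin m → Mt m) :
    gmC (fun b => (fun i j k l => A b i j * B b k l : C4 m)) = lam A * lam B := by
  unfold gmC lam
  rw [Finset.sum_mul_sum]
  refine Finset.sum_congr rfl fun σ _ => Finset.sum_congr rfl fun τ _ => ?_
  rw [Finset.prod_mul_distrib]
  ring

theorem lam_cj (A : Fin m → Mt m) : lam (fun b => cj (A b)) = (starRingEnd ℂ) (lam A) := by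
  unfold lam cj
  rw [map_sum]
  refine Finset.sum_congr rfl fun σ _ => ?_
  rw [map_mul, map_prod, map_intCast]

theorem LF_prod (A B : Fin m → Mt m) :
    LF m (zval (∏ b, (ff false false (A b) * ff true true (B b)))) = lam A * lam B := by
  have h : ∀ b, ff false false (A b) * ff true true (B b) =
      el (th m false) (th m true) (fun i j k l => A b i j * B b k l) := fun b =>
    (eL_mul (A b) (B b)).symm
  simp only [h]
  rw [LF_el, gmC_mul]

/-- the cone of positive elements -/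
noncomputable def cone (m n : ℕ) : AddSubmonoid (Zc (I2 m → ℂ)) :=
  AddSubmonoid.closure {y | ∃ (r : ℝ) (A : Fin n → Mt m), 0 ≤ r ∧
    y = (r : ℂ) • ∏ b, (ff false false (A b) * ff true true (cj (A b)))}

theorem cone_gen {n : ℕ} {r : ℝ} (hr : 0 ≤ r) (A : Fin n → Mt m) :
    (r : ℂ) • ∏ b, (ff false false (A b) * ff true true (cj (A b))) ∈ cone m n :=
  AddSubmonoid.subset_closure ⟨r, A, hr, rfl⟩

theorem cone_gen' {n : ℕ} (A : Fin n → Mt m) :
    ∏ b, (ff false false (A b) * ff true true (cj (A b))) ∈ cone m n := by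
  have h := cone_gen (m := m) (n := n) (r := 1) zero_le_one A
  rwa [Complex.ofReal_one, one_smul] at h

theorem cone_one : (1 : Zc (I2 m → ℂ)) ∈ cone m 0 := by
  have h := cone_gen' (m := m) (n := 0) (fun _ => 0)
  simpa using h

theorem cone_mul {n n' : ℕ} {x y : Zc (I2 m → ℂ)} (hx : x ∈ cone m n) (hy : y ∈ cone m n') :
    x * y ∈ cone m (n + n') := by
  unfold cone at hx
  induction hx using AddSubmonoid.closure_induction with
  | mem x hx =>
    obtain ⟨r, A, hr, rfl⟩ := hx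
    unfold cone at hy
    induction hy using AddSubmonoid.closure_induction with
    | mem y hy =>
      obtain ⟨s, B, hs, rfl⟩ := hy
      have h := cone_gen (m := m) (n := n + n') (r := r * s) (mul_nonneg hr hs) (Fin.append A B)
      rw [Fin.prod_univ_add] at h
      simp only [Fin.append_left, Fin.append_right] at h
      rw [smul_mul_smul_comm, ← Complex.ofReal_mul]
      exact h
    | zero => rw [mul_zero]; exact (cone m (n + n')).zero_mem
    | add y z _ _ hy hz => rw [mul_add]; exact (cone m (n + n')).add_mem hy hz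
  | zero => rw [zero_mul]; exact (cone m (n + n')).zero_mem
  | add x z _ _ hx hz => rw [add_mul]; exact (cone m (n + n')).add_mem hx hz

theorem cone_pow {x : Zc (I2 m → ℂ)} (hx : x ∈ cone m 1) (n : ℕ) : x ^ n ∈ cone m n := by
  induction n with
  | zero => rw [pow_zero]; exact cone_one
  | succ n ih => rw [pow_succ]; exact cone_mul ih hx

theorem cone_LF {y : Zc (I2 m → ℂ)} (hy : y ∈ cone m m) :
    ∃ r : ℝ, 0 ≤ r ∧ LF m (zval y) = (r : ℂ) := by
  unfold cone at hy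
  induction hy using AddSubmonoid.closure_induction with
  | mem y hy =>
    obtain ⟨r, A, hr, rfl⟩ := hy
    refine ⟨r * Complex.normSq (lam A), mul_nonneg hr (Complex.normSq_nonneg _), ?_⟩
    rw [map_smul, map_smul, LF_prod, lam_cj, Complex.mul_conj, smul_eq_mul, Complex.ofReal_mul]
  | zero => exact ⟨0, le_rfl, by rw [map_zero, map_zero, Complex.ofReal_zero]⟩
  | add x y _ _ hx hy =>
    obtain ⟨r, hr, hr'⟩ := hx
    obtain ⟨s, hs, hs'⟩ := hy
    exact ⟨r + s, add_nonneg hr hs, by rw [map_add, map_add, hr', hs', Complex.ofReal_add]⟩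

theorem cone_sq {κ : Type} [Fintype κ] {C : C4 m} (ν : κ → Mt m)
    (hr : ∀ a, cj (ν a) = ν a) (hC : ∀ i j k l, C i j k l = ∑ a, ν a i j * ν a k l) :
    eL C ∈ cone m 1 := by
  have h1 : C = fun i j k l => ∑ a, ν a i j * ν a k l := by
    funext i j k l
    exact hC i j k l
  rw [h1, eL_sum (fun a i j k l => ν a i j * ν a k l)]
  refine AddSubmonoid.sum_mem _ fun a _ => ?_
  rw [eL_mul]
  have h := cone_gen' (m := m) (n := 1) (fun _ => ν a)
  rw [Fin.prod_univ_one, hr] at h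
  exact h

end cone

section torus

theorem LF_act {a b c d : ℂ} (h : a * d - b * c = 1) (x : ExteriorAlgebra ℂ (I2 m → ℂ)) :
    LF m (ExteriorAlgebra.map (act m a b c d) x) = LF m x := LF_map (act_det h) x

theorem weight {C D : Mt m} (hC : ∀ i j, C j i = - C i j) (hD : ∀ i j, D j i = - D i j)
    {T : Zc (I2 m → ℂ)} (hT : Inv T) {k l : ℕ} (hkl : k ≠ l) :
    LF m (zval (ff false false C ^ k * ff true true D ^ l * T)) = 0 := by
  have h1 : (2 : ℂ) * (1 / 2) - 0 * 0 = 1 := by norm_num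
  have h2 := LF_act (m := m) h1 (zval (ff false false C ^ k * ff true true D ^ l * T))
  have h3 : ExteriorAlgebra.map (act m 2 0 0 (1 / 2))
      (zval (ff false false C ^ k * ff true true D ^ l * T)) =
      zval (((4 : ℂ) ^ k * (1 / 4) ^ l) • (ff false false C ^ k * ff true true D ^ l * T)) := by
    simp only [map_mul, map_pow, map_pp _ _ _ _ hC, map_cc _ _ _ _ hD, hT _ _ _ _ h1]
    simp only [← map_pow, ← map_mul]
    congr 1
    have e1 : ((2 : ℂ) ^ 2 • ff false false C + (2 * 2 * 0 : ℂ) • ff false true C +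
        (0 : ℂ) ^ 2 • ff true true C) = (4 : ℂ) • ff false false C := by
      norm_num
    have e2 : ((0 : ℂ) ^ 2 • ff false false D + (2 * 0 * (1 / 2) : ℂ) • ff false true D +
        (1 / 2 : ℂ) ^ 2 • ff true true D) = (1 / 4 : ℂ) • ff true true D := by
      norm_num
    rw [e1, e2, smul_pow, smul_pow]
    simp only [Algebra.smul_def, map_mul]
    ring
  rw [h3, map_smul, map_smul, smul_eq_mul] at h2
  have h4 : (4 : ℂ) ^ k * (1 / 4) ^ l ≠ 1 := by
    intro h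
    apply hkl
    have h5 : (4 : ℂ) ^ k = 4 ^ l := by
      have h6 : (4 : ℂ) ^ l ≠ 0 := pow_ne_zero _ (by norm_num)
      rw [one_div, inv_pow] at h
      field_simp at h
      exact h
    have h7 : (4 : ℕ) ^ k = 4 ^ l := by exact_mod_cast h5
    exact Nat.pow_right_injective (le_refl 2 |>.trans (by norm_num)) h7
  have h5 : ((4 : ℂ) ^ k * (1 / 4) ^ l - 1) *
      LF m (zval (ff false false C ^ k * ff true true D ^ l * T)) = 0 := by
    rw [sub_mul, h2, one_mul, sub_self]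
  exact (mul_eq_zero.mp h5).resolve_left (sub_ne_zero.mpr h4)

theorem planar {C : Mt m} (hC : ∀ i j, C j i = - C i j) {T : Zc (I2 m → ℂ)} (hT : Inv T)
    {N n : ℕ} (hTc : T ∈ cone m n) (hN : N + n = m) :
    ∃ r : ℝ, 0 ≤ r ∧
      LF m (zval ((ff false false C + ff true true (cj C)) ^ (2 * N) * T)) = (r : ℂ) := by
  have hD : ∀ i j, cj C j i = - cj C i j := fun i j => by
    simp only [cj]; rw [hC i j, map_neg]
  have h1 : (ff false false C + ff true true (cj C)) ^ (2 * N) * T =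
      ∑ k ∈ Finset.range (2 * N + 1), ((2 * N).choose k : ℂ) •
        (ff false false C ^ k * ff true true (cj C) ^ (2 * N - k) * T) := by
    rw [add_pow, Finset.sum_mul]
    refine Finset.sum_congr rfl fun k _ => ?_
    simp only [Algebra.smul_def, map_natCast]
    ring
  have h2 : LF m (zval ((ff false false C + ff true true (cj C)) ^ (2 * N) * T)) =
      ((2 * N).choose N : ℂ) *
        LF m (zval (ff false false C ^ N * ff true true (cj C) ^ (2 * N - N) * T)) := by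
    rw [h1, map_sum, map_sum]
    simp only [map_smul, smul_eq_mul]
    rw [Finset.sum_eq_single N]
    · intro k hk hkN
      rw [Finset.mem_range] at hk
      rw [weight hC hD hT (by omega), mul_zero]
    · intro h
      exact absurd (Finset.mem_range.mpr (by omega)) h
  have h3 : ff false false C ^ N * ff true true (cj C) ^ (2 * N - N) * T ∈ cone m m := by
    have h4 : 2 * N - N = N := by omega
    rw [h4, ← mul_pow]
    have h5 := cone_gen' (m := m) (n := N) (fun _ => C)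
    rw [Finset.prod_const, Finset.card_univ, Fintype.card_fin] at h5
    have h6 := cone_mul h5 hTc
    rwa [hN] at h6
  obtain ⟨r, hr, hr'⟩ := cone_LF h3
  refine ⟨(2 * N).choose N * r, by positivity, ?_⟩
  rw [h2, hr']
  push_cast
  ring

end torus

section rot

/-- linear forms -/
noncomputable def uu (α β γ : ℂ) (A : Mt m) : Zc (I2 m → ℂ) :=
  α • ff false false A + β • ff true true A + γ • ff false true A

theorem map_uu (a b c d α β γ : ℂ) {A : Mt m} (hA : ∀ i j, A j i = - A i j) :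
    ExteriorAlgebra.map (act m a b c d) (zval (uu α β γ A)) =
      zval (uu (α * a ^ 2 + β * c ^ 2 + γ * (a * c)) (α * b ^ 2 + β * d ^ 2 + γ * (b * d))
        (α * (2 * a * b) + β * (2 * c * d) + γ * (a * d + b * c)) A) := by
  simp only [uu, map_add, map_smul, map_pp _ _ _ _ hA, map_cc _ _ _ _ hA, map_pc _ _ _ _ hA]
  simp only [← map_smul, ← map_add]
  congr 1
  simp only [Algebra.smul_def, map_mul, map_add, map_pow, map_ofNat]
  ring

/-- real linear forms -/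
noncomputable def vv (p₁ p₂ p₃ : ℝ) (A : Mt m) : Zc (I2 m → ℂ) :=
  uu (((p₁ : ℂ) + Complex.I * p₂) / 2) (((p₁ : ℂ) - Complex.I * p₂) / 2) (Complex.I * p₃) A

theorem rot12 {A : Mt m} (hA : ∀ i j, A j i = - A i j) {c s : ℝ} (h : c ^ 2 + s ^ 2 = 1) {z : ℂ}
    (hz : z ^ 2 = c + Complex.I * s) (p₁ p₂ p₃ : ℝ) : z * z⁻¹ - 0 * 0 = 1 ∧
    ExteriorAlgebra.map (act m z 0 0 z⁻¹) (zval (vv p₁ p₂ p₃ A)) =
      zval (vv (c * p₁ - s * p₂) (s * p₁ + c * p₂) p₃ A) := by
  have hI := Complex.I_sq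
  have hcs : ((c : ℂ) + Complex.I * s) * (c - Complex.I * s) = 1 := by
    have h' : (c : ℂ) ^ 2 + (s : ℂ) ^ 2 = 1 := by exact_mod_cast h
    linear_combination h' - (s : ℂ) ^ 2 * hI
  have hz0 : z ≠ 0 := by
    rintro rfl
    rw [← hz] at hcs
    norm_num at hcs
  have hz2 : z⁻¹ ^ 2 = c - Complex.I * s := by
    rw [inv_pow, hz]
    exact inv_eq_of_mul_eq_one_right hcs
  refine ⟨by rw [mul_inv_cancel₀ hz0]; ring, ?_⟩
  rw [vv, map_uu _ _ _ _ _ _ _ hA, vv, hz, hz2, mul_inv_cancel₀ hz0]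
  congr 2
  · push_cast
    linear_combination ((s : ℂ) * p₂ / 2) * hI
  · push_cast
    linear_combination ((s : ℂ) * p₂ / 2) * hI
  · ring

theorem rot23 {A : Mt m} (hA : ∀ i j, A j i = - A i j) {g t : ℝ} (h : g ^ 2 + t ^ 2 = 1)
    (p₁ p₂ p₃ : ℝ) : (g : ℂ) * g - t * (-t) = 1 ∧
    ExteriorAlgebra.map (act m g t (-t) g) (zval (vv p₁ p₂ p₃ A)) =
      zval (vv p₁ ((g ^ 2 - t ^ 2) * p₂ - (2 * g * t) * p₃)
        ((2 * g * t) * p₂ + (g ^ 2 - t ^ 2) * p₃) A) := by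
  have h' : (g : ℂ) ^ 2 + (t : ℂ) ^ 2 = 1 := by exact_mod_cast h
  refine ⟨by linear_combination h', ?_⟩
  rw [vv, map_uu _ _ _ _ _ _ _ hA, vv]
  congr 2
  · push_cast
    linear_combination ((p₁ : ℂ) / 2) * h'
  · push_cast
    linear_combination ((p₁ : ℂ) / 2) * h'
  · push_cast
    ring

theorem sqrt_exists {c s : ℝ} (h : c ^ 2 + s ^ 2 = 1) :
    ∃ g t : ℝ, g ^ 2 + t ^ 2 = 1 ∧ g ^ 2 - t ^ 2 = c ∧ 2 * g * t = s := by
  obtain ⟨z, hz⟩ := IsAlgClosed.exists_pow_nat_eq ((c : ℂ) + s * Complex.I) (n := 2) two_pos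
  have h1 : z.re ^ 2 - z.im ^ 2 = c := by
    have := congrArg Complex.re hz
    simp [sq] at this
    linarith
  have h2 : 2 * z.re * z.im = s := by
    have := congrArg Complex.im hz
    simp [sq] at this
    linarith
  refine ⟨z.re, z.im, ?_, h1, h2⟩
  have h3 : (z.re ^ 2 + z.im ^ 2) ^ 2 = 1 := by
    have : (z.re ^ 2 + z.im ^ 2) ^ 2 = (z.re ^ 2 - z.im ^ 2) ^ 2 + (2 * z.re * z.im) ^ 2 := by ring
    rw [this, h1, h2, h]
  have h4 : (0 : ℝ) ≤ z.re ^ 2 + z.im ^ 2 := by positivity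
  nlinarith

theorem normal_exists (p₁ p₂ p₃ q₁ q₂ q₃ : ℝ) : ∃ n₁ n₂ n₃ : ℝ, n₁ ^ 2 + n₂ ^ 2 + n₃ ^ 2 ≠ 0 ∧
    n₁ * p₁ + n₂ * p₂ + n₃ * p₃ = 0 ∧ n₁ * q₁ + n₂ * q₂ + n₃ * q₃ = 0 := by
  have h : (!![p₁, p₂, p₃; q₁, q₂, q₃; 0, 0, 0] : Matrix (Fin 3) (Fin 3) ℝ).det = 0 := by
    rw [Matrix.det_fin_three]
    simp
  obtain ⟨v, hv, hv'⟩ := Matrix.exists_mulVec_eq_zero_iff.mpr h
  refine ⟨v 0, v 1, v 2, ?_, ?_, ?_⟩
  · intro h0
    apply hv
    have h1 : v 0 = 0 := by nlinarith [sq_nonneg (v 0), sq_nonneg (v 1), sq_nonneg (v 2)]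
    have h2 : v 1 = 0 := by nlinarith [sq_nonneg (v 0), sq_nonneg (v 1), sq_nonneg (v 2)]
    have h3 : v 2 = 0 := by nlinarith [sq_nonneg (v 0), sq_nonneg (v 1), sq_nonneg (v 2)]
    funext i
    fin_cases i
    · exact h1
    · exact h2
    · exact h3
  · have := congrFun hv' 0
    simp [Matrix.mulVec, dotProduct, Fin.sum_univ_three] at this
    linarith
  · have := congrFun hv' 1
    simp [Matrix.mulVec, dotProduct, Fin.sum_univ_three] at this
    linarith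

end rot

section claim

variable {A B : Mt m}

theorem vv_planar (p₁ p₂ q₁ q₂ : ℝ) (hA : cj A = A) (hB : cj B = B) :
    vv p₁ p₂ 0 A + vv q₁ q₂ 0 B =
      ff false false ((((p₁ : ℂ) + Complex.I * p₂) / 2) • A +
        (((q₁ : ℂ) + Complex.I * q₂) / 2) • B) +
      ff true true (cj ((((p₁ : ℂ) + Complex.I * p₂) / 2) • A +
        (((q₁ : ℂ) + Complex.I * q₂) / 2) • B)) := by
  have h : cj ((((p₁ : ℂ) + Complex.I * p₂) / 2) • A + (((q₁ : ℂ) + Complex.I * q₂) / 2) • B) =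
      (((p₁ : ℂ) - Complex.I * p₂) / 2) • A + (((q₁ : ℂ) - Complex.I * q₂) / 2) • B := by
    funext i j
    have h1 : (starRingEnd ℂ) (A i j) = A i j := congrFun (congrFun hA i) j
    have h2 : (starRingEnd ℂ) (B i j) = B i j := congrFun (congrFun hB i) j
    simp only [cj, Pi.add_apply, Pi.smul_apply, smul_eq_mul, map_add, map_mul, map_div₀, h1, h2,
      Complex.conj_ofReal, Complex.conj_I, map_ofNat]
    ring
  rw [h, ff_add, ff_add, ff_smul, ff_smul, ff_smul, ff_smul, vv, vv, uu, uu]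
  simp only [Complex.ofReal_zero, mul_zero, zero_smul, add_zero]
  abel

theorem claim (hA : ∀ i j, A j i = - A i j) (hB : ∀ i j, B j i = - B i j)
    (hAr : cj A = A) (hBr : cj B = B) {T : Zc (I2 m → ℂ)} (hT : Inv T)
    {N n : ℕ} (hTc : T ∈ cone m n) (hN : N + n = m) (p₁ p₂ p₃ q₁ q₂ q₃ : ℝ) :
    ∃ r : ℝ, 0 ≤ r ∧
      LF m (zval ((vv p₁ p₂ p₃ A + vv q₁ q₂ q₃ B) ^ (2 * N) * T)) = (r : ℂ) := by
  -- planar case
  have h0 : ∀ p₁ p₂ q₁ q₂ : ℝ, ∃ r : ℝ, 0 ≤ r ∧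
      LF m (zval ((vv p₁ p₂ 0 A + vv q₁ q₂ 0 B) ^ (2 * N) * T)) = (r : ℂ) := by
    intro p₁ p₂ q₁ q₂
    rw [vv_planar p₁ p₂ q₁ q₂ hAr hBr]
    refine planar ?_ hT hTc hN
    intro i j
    simp only [Pi.add_apply, Pi.smul_apply, smul_eq_mul, hA i j, hB i j]
    ring
  obtain ⟨n₁, n₂, n₃, hn, hp, hq⟩ := normal_exists p₁ p₂ p₃ q₁ q₂ q₃
  set r : ℝ := Real.sqrt (n₁ ^ 2 + n₂ ^ 2) with hr
  have hr2 : r ^ 2 = n₁ ^ 2 + n₂ ^ 2 := Real.sq_sqrt (by positivity)
  obtain ⟨c, s, hcs, hc, hs⟩ : ∃ c s : ℝ, c ^ 2 + s ^ 2 = 1 ∧ r * c = n₂ ∧ r * s = n₁ := by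
    by_cases h : r = 0
    · rw [h] at hr2
      refine ⟨1, 0, by norm_num, ?_, ?_⟩
      · have : n₂ = 0 := by nlinarith [sq_nonneg n₁, sq_nonneg n₂]
        rw [this, h]; ring
      · have : n₁ = 0 := by nlinarith [sq_nonneg n₁, sq_nonneg n₂]
        rw [this, h]; ring
    · refine ⟨n₂ / r, n₁ / r, ?_, ?_, ?_⟩
      · field_simp
        linarith
      · field_simp
      · field_simp
  set ρ : ℝ := Real.sqrt (r ^ 2 + n₃ ^ 2) with hρ
  have hρ2 : ρ ^ 2 = r ^ 2 + n₃ ^ 2 := Real.sq_sqrt (by positivity)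
  have hρ0 : ρ ≠ 0 := by
    intro h
    apply hn
    rw [h] at hρ2
    linarith
  have hu : (n₃ / ρ) ^ 2 + (r / ρ) ^ 2 = 1 := by
    field_simp
    linarith
  obtain ⟨g, t, hgt, hg, ht⟩ := sqrt_exists hu
  obtain ⟨z, hz⟩ := IsAlgClosed.exists_pow_nat_eq ((c : ℂ) + Complex.I * s) (n := 2) two_pos
  -- first rotation
  have e1 : LF m (zval ((vv p₁ p₂ p₃ A + vv q₁ q₂ q₃ B) ^ (2 * N) * T)) =
      LF m (zval ((vv (c * p₁ - s * p₂) (s * p₁ + c * p₂) p₃ A +
        vv (c * q₁ - s * q₂) (s * q₁ + c * q₂) q₃ B) ^ (2 * N) * T)) := by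
    have h1 := rot12 hA hcs hz p₁ p₂ p₃
    have h2 := rot12 hB hcs hz q₁ q₂ q₃
    rw [← LF_act h1.1]
    congr 1
    simp only [map_mul, map_pow, map_add, h1.2, h2.2, hT _ _ _ _ h1.1]
  have e2 : ∀ p₁ p₂ p₃ q₁ q₂ q₃ : ℝ,
      LF m (zval ((vv p₁ p₂ p₃ A + vv q₁ q₂ q₃ B) ^ (2 * N) * T)) =
      LF m (zval ((vv p₁ ((g ^ 2 - t ^ 2) * p₂ - (2 * g * t) * p₃)
        ((2 * g * t) * p₂ + (g ^ 2 - t ^ 2) * p₃) A +
        vv q₁ ((g ^ 2 - t ^ 2) * q₂ - (2 * g * t) * q₃)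
        ((2 * g * t) * q₂ + (g ^ 2 - t ^ 2) * q₃) B) ^ (2 * N) * T)) := by
    intro p₁ p₂ p₃ q₁ q₂ q₃
    have h1 := rot23 hA hgt p₁ p₂ p₃
    have h2 := rot23 hB hgt q₁ q₂ q₃
    rw [← LF_act h1.1]
    congr 1
    simp only [map_mul, map_pow, map_add, h1.2, h2.2, hT _ _ _ _ h1.1]
  rw [e1, e2]
  have z1 : (2 * g * t) * (s * p₁ + c * p₂) + (g ^ 2 - t ^ 2) * p₃ = 0 := by
    rw [hg, ht]
    field_simp
    have : r * (s * p₁ + c * p₂) + n₃ * p₃ = (r * s) * p₁ + (r * c) * p₂ + n₃ * p₃ := by ring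
    rw [hs, hc] at this
    linarith
  have z2 : (2 * g * t) * (s * q₁ + c * q₂) + (g ^ 2 - t ^ 2) * q₃ = 0 := by
    rw [hg, ht]
    field_simp
    have : r * (s * q₁ + c * q₂) + n₃ * q₃ = (r * s) * q₁ + (r * c) * q₂ + n₃ * q₃ := by ring
    rw [hs, hc] at this
    linarith
  rw [z1, z2]
  exact h0 _ _ _ _

/-- the family of linear forms -/
noncomputable def xx (A B : Mt m) : Fin 3 ⊕ Fin 3 → Zc (I2 m → ℂ) :=
  Sum.elim (fun k => vv (if k = 0 then 1 else 0) (if k = 1 then 1 else 0) (if k = 2 then 1 else 0) A)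
    (fun k => vv (if k = 0 then 1 else 0) (if k = 1 then 1 else 0) (if k = 2 then 1 else 0) B)

theorem vv_comb (a b c : ℝ) (A : Mt m) : a • vv 1 0 0 A + b • vv 0 1 0 A + c • vv 0 0 1 A =
    vv a b c A := by
  rw [← Complex.coe_smul a, ← Complex.coe_smul b, ← Complex.coe_smul c]
  simp only [vv, uu, smul_add, smul_smul]
  have h : ∀ (x₁ x₂ x₃ y₁ y₂ y₃ z₁ z₂ z₃ u v w : ℂ) (X Y Z : Zc (I2 m → ℂ)), x₁ + y₁ + z₁ = u →
      x₂ + y₂ + z₂ = v → x₃ + y₃ + z₃ = w →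
      x₁ • X + x₂ • Y + x₃ • Z + (y₁ • X + y₂ • Y + y₃ • Z) + (z₁ • X + z₂ • Y + z₃ • Z) =
      u • X + v • Y + w • Z := by
    intro x₁ x₂ x₃ y₁ y₂ y₃ z₁ z₂ z₃ u v w X Y Z h1 h2 h3
    rw [← h1, ← h2, ← h3]
    simp only [add_smul]
    abel
  apply h <;> (push_cast; ring)

theorem vv_sq (A : Mt m) : vv 1 0 0 A ^ 2 + vv 0 1 0 A ^ 2 + vv 0 0 1 A ^ 2 = qi A := by
  have hI : algebraMap ℂ (Zc (I2 m → ℂ)) Complex.I ^ 2 = -1 := by
    rw [← map_pow, Complex.I_sq, map_neg, map_one]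
  have h2 : algebraMap ℂ (Zc (I2 m → ℂ)) (1 / 2) * 2 = 1 := by
    have : (2 : Zc (I2 m → ℂ)) = algebraMap ℂ (Zc (I2 m → ℂ)) 2 := (map_ofNat _ 2).symm
    rw [this, ← map_mul]
    norm_num
  have c1 : vv 1 0 0 A = algebraMap ℂ (Zc (I2 m → ℂ)) (1 / 2) *
      (ff false false A + ff true true A) := by
    simp only [vv, uu, Algebra.smul_def]
    norm_num
    ring
  have c2 : vv 0 1 0 A = algebraMap ℂ (Zc (I2 m → ℂ)) (1 / 2) *
      (algebraMap ℂ (Zc (I2 m → ℂ)) Complex.I * (ff false false A - ff true true A)) := by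
    have e1 : (((0 : ℝ) : ℂ) + Complex.I * ((1 : ℝ) : ℂ)) / 2 = (1 / 2) * Complex.I := by
      push_cast; ring
    have e2 : (((0 : ℝ) : ℂ) - Complex.I * ((1 : ℝ) : ℂ)) / 2 = -((1 / 2) * Complex.I) := by
      push_cast; ring
    rw [vv, uu, e1, e2]
    simp only [Algebra.smul_def, map_neg, map_mul, Complex.ofReal_zero, mul_zero, map_zero]
    ring
  have c3 : vv 0 0 1 A = algebraMap ℂ (Zc (I2 m → ℂ)) Complex.I * ff false true A := by
    simp only [vv, uu, Algebra.smul_def]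
    norm_num
  rw [c1, c2, c3, qi]
  generalize algebraMap ℂ (Zc (I2 m → ℂ)) (1 / 2) = h at *
  generalize algebraMap ℂ (Zc (I2 m → ℂ)) Complex.I = i at *
  generalize ff false false A = x
  generalize ff true true A = y
  generalize ff false true A = z
  linear_combination (h ^ 2 * (x - y) ^ 2 + z ^ 2) * hI + (x * y * (h * 2 + 1)) * h2

theorem xx_sum (ξ : Fin 3 ⊕ Fin 3 → ℝ) : ∑ i, ξ i • xx A B i =
    vv (ξ (Sum.inl 0)) (ξ (Sum.inl 1)) (ξ (Sum.inl 2)) A +
      vv (ξ (Sum.inr 0)) (ξ (Sum.inr 1)) (ξ (Sum.inr 2)) B := by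
  rw [Fintype.sum_sum_type, ← vv_comb (ξ (Sum.inl 0)), ← vv_comb (ξ (Sum.inr 0))]
  simp only [Fin.sum_univ_three, xx, Sum.elim_inl, Sum.elim_inr]
  simp

theorem xx_sq : ∑ i, xx A B i ^ 2 = qi A + qi B := by
  rw [Fintype.sum_sum_type, ← vv_sq A, ← vv_sq B]
  simp only [Fin.sum_univ_three, xx, Sum.elim_inl, Sum.elim_inr]
  simp

/-- the real part of the functional -/
noncomputable def LR (m : ℕ) : Zc (I2 m → ℂ) →ₗ[ℝ] ℝ :=
  Complex.reLm ∘ₗ ((LF m).restrictScalars ℝ) ∘ₗ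
    ((zval (M := I2 m → ℂ)).toLinearMap.restrictScalars ℝ)

theorem LR_apply (x : Zc (I2 m → ℂ)) : LR m x = (LF m (zval x)).re := rfl

/-- The main positivity. -/
theorem pos_main (hA : ∀ i j, A j i = - A i j) (hB : ∀ i j, B j i = - B i j)
    (hAr : cj A = A) (hBr : cj B = B) {T : Zc (I2 m → ℂ)} (hT : Inv T)
    {N n : ℕ} (hTc : T ∈ cone m n) (hN : N + n = m) :
    0 ≤ (LF m (zval ((qi A + qi B) ^ N * T))).re := by
  have h := gauss_pos (xx A B) T (LR m) N (fun ξ => by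
    rw [xx_sum, LR_apply]
    obtain ⟨r, hr, hr'⟩ := claim hA hB hAr hBr hT hTc hN (ξ (Sum.inl 0)) (ξ (Sum.inl 1))
      (ξ (Sum.inl 2)) (ξ (Sum.inr 0)) (ξ (Sum.inr 1)) (ξ (Sum.inr 2))
    rw [hr', Complex.ofReal_re]
    exact hr)
  rw [xx_sq, LR_apply] at h
  exact h

end claim

end Pool.Agent.Y195.HF
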