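import Pool.Agent.Y195.HF.Iff

/-!
# The positive side
-/

set_option autoImplicit false

namespace Pool.Agent.Y195.HF

open Pool.Agent.W666.GB Pool.Agent.W669.HD Finset

variable {m : ℕ} {V : Type} [NormedAddCommGroup V] [InnerProductSpace ℝ V]

theorem gbc_negT (e : OrthonormalBasis (Fin m × Bool) ℝ V) (R : V → V → V → V → ℝ) :
    (-1) ^ m * gbc e (negT R) = gbc e R := by
  rw [gbc_eq]
  unfold gbc gm cp negT
  congr 1
  refine Finset.sum_congr rfl fun σ _ => Finset.sum_congr rfl fun τ _ => ?_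
  simp only [neg_neg]
  rfl

/-- The hypothesis: `R = P + skewCurv A + skewCurv B`, where the curvature operator of the
algebraic curvature tensor `P` is at least `δ`. -/
def TwoSkewPos (δ : ℝ) (R : V → V → V → V → ℝ) : Prop :=
  ∃ A B : V → V → ℝ, SkewForm A ∧ SkewForm B ∧
    OpNonneg (addT R (negT (addT (addT (fun x y z w => δ * unitT x y z w) (skewCurv A))
      (skewCurv B))))

theorem pos_iff (δ : ℝ) (R : V → V → V → V → ℝ) : TwoSkewPos δ R ↔ TwoSkew δ (negT R) := by
  have h : ∀ A B : V → V → ℝ,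
      addT R (negT (addT (addT (fun x y z w => δ * unitT x y z w) (skewCurv A))
        (skewCurv B))) =
      negT (addT (addT (addT (negT R) fun x y z w => δ * unitT x y z w) (skewCurv A))
        (skewCurv B)) := by
    intro A B
    funext x y z w
    simp only [negT, addT]
    ring
  unfold TwoSkewPos TwoSkew
  simp only [h]

theorem two_skew_pos (e : OrthonormalBasis (Fin m × Bool) ℝ V) {R : V → V → V → V → ℝ}
    (hR : AlgCurv R) {δ : ℝ} (hδ : 0 ≤ δ) (h : TwoSkewPos δ R) : roundGB m δ ≤ gbc e R := by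
  rw [← gbc_negT e R]
  exact two_skew e (neg_curv hR) hδ ((pos_iff δ R).mp h)

theorem field_pos {M : Type} [MeasurableSpace M] (μ : MeasureTheory.Measure M)
    (K : CurvField m M) (δ : M → ℝ) (h : ∀ p, 0 ≤ δ p ∧ TwoSkewPos (δ p) (K.R p)) :
    0 ≤ ∫ p, K.gb p ∂μ ∧
      (MeasureTheory.Integrable K.gb μ → μ {p | 0 < δ p} ≠ 0 → 0 < ∫ p, K.gb p ∂μ) := by
  have h1 : ∀ p, roundGB m (δ p) ≤ K.gb p := fun p =>
    two_skew_pos (K.e p) (K.curv p) (h p).1 (h p).2
  have h0 : ∀ p, 0 ≤ K.gb p := fun p => (roundGB_nonneg (h p).1).trans (h1 p)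
  refine ⟨MeasureTheory.integral_nonneg h0, fun hi hμ => ?_⟩
  rw [MeasureTheory.integral_pos_iff_support_of_nonneg h0 hi]
  refine lt_of_lt_of_le (pos_iff_ne_zero.mpr hμ) (MeasureTheory.measure_mono fun p hp => ?_)
  have h2 := roundGB_pos (m := m) (show 0 < δ p from hp)
  exact (h2.trans_le (h1 p)).ne'

/-- Tensors close to that of a complex space form. -/
theorem near_complex {R : V → V → V → V → ℝ} {J : V → V → ℝ} (hJ : SkewForm J) {c ε : ℝ}
    (hc : 0 ≤ c)
    (h : OpNonneg (addT R fun x y z w => ε * unitT x y z w - c * (unitT x y z w +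
      skewCurv J x y z w))) : TwoSkewPos (c - ε) R := by
  refine ⟨fun x y => Real.sqrt c * J x y, fun _ _ => 0, ?_, zero_skew, ?_⟩
  · refine ⟨fun x x' y => ?_, fun t x y => ?_, fun x y => ?_⟩
    · simp only [hJ.add]; ring
    · simp only [hJ.smul]; ring
    · simp only [hJ.anti x y]; ring
  · have hs : Real.sqrt c * Real.sqrt c = c := Real.mul_self_sqrt hc
    have h2 : addT R (negT (addT (addT (fun x y z w => (c - ε) * unitT x y z w)
        (skewCurv fun x y => Real.sqrt c * J x y)) (skewCurv fun _ _ : V => (0 : ℝ)))) =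
        addT R fun x y z w => ε * unitT x y z w - c * (unitT x y z w + skewCurv J x y z w) := by
      funext x y z w
      simp only [addT, negT, skewCurv]
      linear_combination (-(2 * (J x y * J z w) + J x z * J y w - J x w * J y z)) * hs
    rw [h2]
    exact h

theorem four_iff_pos (e : OrthonormalBasis (Fin 2 × Bool) ℝ V) {R : V → V → V → V → ℝ}
    (hR : AlgCurv R) (δ : ℝ) :
    TwoSkewPos δ R ↔ ∀ x y, δ * unitT x y x y ≤ R x y x y := by
  rw [pos_iff, four_iff e (neg_curv hR)]
  constructor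
  · intro h x y
    have := h x y
    simp only [negT] at this
    linarith
  · intro h x y
    have := h x y
    simp only [negT]
    linarith

theorem TwoSkewPos.sec {δ : ℝ} {R : V → V → V → V → ℝ} (h : TwoSkewPos δ R) (x y : V) :
    δ * unitT x y x y ≤ R x y x y := by
  have := ((pos_iff δ R).mp h).sec x y
  simp only [negT] at this
  linarith

theorem sum_twoSkewPos (e : OrthonormalBasis (Fin m × Bool) ℝ V)
    {R₁ R₂ : V → V → V → V → ℝ} (W : Submodule ℝ V) (h₁ : AlgCurv R₁)
    (hW : Module.finrank ℝ W ≤ 4) (hL : LivesOn W R₁) (hsec : ∀ x y, 0 ≤ R₁ x y x y) {δ : ℝ}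
    (hn : OpNonneg (addT R₂ fun x y z w => -δ * unitT x y z w)) :
    TwoSkewPos δ (addT R₁ R₂) := by
  rw [pos_iff]
  have h1 : negT (addT R₁ R₂) = addT (negT R₁) (negT R₂) := by
    funext x y z w
    simp only [negT, addT]
    ring
  rw [h1]
  refine sum_twoSkew e W (neg_curv h₁) hW ?_ ?_ ?_
  · intro x hx y z w
    simp only [negT, hL x hx y z w, neg_zero]
  · intro x y
    have := hsec x y
    simp only [negT]
    linarith
  · have h2 : negT (addT (negT R₂) fun x y z w => δ * unitT x y z w) =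
        addT R₂ fun x y z w => -δ * unitT x y z w := by
      funext x y z w
      simp only [negT, addT]
      ring
    rw [h2]
    exact hn

/-- Three skew forms and a tensor of positive constant curvature in dimension six. -/
theorem three_fail_pos : ∃ (δ : ℝ) (R : E6 → E6 → E6 → E6 → ℝ), 0 < δ ∧ AlgCurv R ∧
    (∃ A : Fin 3 → E6 → E6 → ℝ, (∀ s, SkewForm (A s)) ∧
      ∀ x y z w, R x y z w = δ * unitT x y z w + ∑ s, skewCurv (A s) x y z w) ∧
    ∀ e : OrthonormalBasis (Fin 3 × Bool) ℝ E6, gbc e R < 0 := by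
  obtain ⟨R, hR, ⟨A, hA, hRA⟩, hneg⟩ := three_fail
  set e₀ : OrthonormalBasis (Fin 3 × Bool) ℝ E6 := EuclideanSpace.basisFun _ ℝ with he₀
  have hc : Continuous fun t : ℝ => gbc e₀ (addT (negT R) fun x y z w => t * unitT x y z w) := by
    unfold gbc addT
    fun_prop
  have h0 : gbc e₀ (addT (negT R) fun x y z w => (0 : ℝ) * unitT x y z w) < 0 := by
    have h1 : (addT (negT R) fun x y z w => (0 : ℝ) * unitT x y z w) = negT R := by
      funext x y z w
      simp [addT]
    have h2 : gbc e₀ (negT R) = (-1) ^ 3 * gbc e₀ R := by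
      have h3 := gbc_negT e₀ (negT R)
      have h4 : negT (negT R) = R := by
        funext x y z w
        simp [negT]
      rw [h4] at h3
      exact h3.symm
    rw [h1, h2]
    exact hneg e₀
  have hev : ∀ᶠ t in nhds (0 : ℝ),
      gbc e₀ (addT (negT R) fun x y z w => t * unitT x y z w) < 0 :=
    hc.continuousAt.eventually_lt continuousAt_const h0
  obtain ⟨ε, hε, hball⟩ := Metric.eventually_nhds_iff.mp hev
  have hδ : gbc e₀ (addT (negT R) fun x y z w => (ε / 2) * unitT x y z w) < 0 := by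
    apply hball
    rw [Real.dist_eq, sub_zero, abs_of_pos (by positivity)]
    linarith
  have hR' : AlgCurv (addT (negT R) fun x y z w : E6 => (ε / 2) * unitT x y z w) :=
    add_curv (neg_curv hR) (unit_curv _)
  refine ⟨ε / 2, _, by positivity, hR', ⟨A, hA, fun x y z w => ?_⟩, fun e => ?_⟩
  · simp only [addT, negT, hRA]
    ring
  · rw [Pool.Agent.W688.HD.bas 3 E6 e e₀ _ hR']
    exact hδ

end Pool.Agent.Y195.HF
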