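import Pool.Agent.Y195.HF.Phi
import Mathlib.LinearAlgebra.ExteriorAlgebra.OfAlternating
import Mathlib.LinearAlgebra.Determinant
import Mathlib.LinearAlgebra.Matrix.Kronecker
import Mathlib.Algebra.BigOperators.Fin

/-!
# The top degree functional
-/

set_option autoImplicit false

namespace Pool.Agent.Y195.HF

open Finset

section top

variable {I : Type} [Fintype I] [DecidableEq I]

/-- the alternating forms -/
noncomputable def topA (I : Type) [Fintype I] [DecidableEq I] (n : ℕ) : (I → ℂ) [⋀^Fin n]→ₗ[ℂ] ℂ :=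
  if h : Fintype.card I = n then
    ((Pi.basisFun ℂ I).det).domDomCongr (Fintype.equivFinOfCardEq h) else 0

theorem topA_apply (v : Fin (Fintype.card I) → I → ℂ) : topA I (Fintype.card I) v =
    (Pi.basisFun ℂ I).det (v ∘ Fintype.equivFinOfCardEq rfl) := by
  unfold topA
  rw [dif_pos rfl]
  rfl

theorem topA_comp (n : ℕ) (f : (I → ℂ) →ₗ[ℂ] (I → ℂ)) (v : Fin n → I → ℂ) :
    topA I n (fun i => f (v i)) = LinearMap.det f * topA I n v := by
  by_cases h : Fintype.card I = n
  · subst h
    rw [topA_apply, topA_apply, ← Module.Basis.det_comp]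
    rfl
  · unfold topA
    rw [dif_neg h]
    simp

/-- the functional -/
noncomputable def topF (I : Type) [Fintype I] [DecidableEq I] :
    ExteriorAlgebra ℂ (I → ℂ) →ₗ[ℂ] ℂ :=
  ExteriorAlgebra.liftAlternating (topA I)

theorem topF_iota (n : ℕ) (v : Fin n → I → ℂ) :
    topF I (ExteriorAlgebra.ιMulti ℂ n v) = topA I n v :=
  ExteriorAlgebra.liftAlternating_apply_ιMulti _ _

theorem topF_map (f : (I → ℂ) →ₗ[ℂ] (I → ℂ)) (x : ExteriorAlgebra ℂ (I → ℂ)) :
    topF I (ExteriorAlgebra.map f x) = LinearMap.det f * topF I x := by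
  have h : (topF I) ∘ₗ (ExteriorAlgebra.map f).toLinearMap = LinearMap.det f • topF I := by
    refine ExteriorAlgebra.lhom_ext fun n => ?_
    ext v
    simp only [LinearMap.compAlternatingMap_apply, LinearMap.coe_comp, Function.comp_apply,
      AlgHom.toLinearMap_apply, LinearMap.smul_apply, smul_eq_mul]
    rw [ExteriorAlgebra.map_apply_ιMulti, topF_iota, topF_iota]
    exact topA_comp n f v
  exact LinearMap.congr_fun h x

theorem topF_list (l : List I) (hl : l.length = Fintype.card I) (hm : ∀ i, i ∈ l) :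
    topF I ((l.map fun i => ExteriorAlgebra.ι ℂ (Pi.single i (1 : ℂ) : I → ℂ)).prod) ≠ 0 ∧
    (topF I ((l.map fun i => ExteriorAlgebra.ι ℂ (Pi.single i (1 : ℂ) : I → ℂ)).prod)) ^ 2 = 1 := by
  have h1 : (l.map fun i => ExteriorAlgebra.ι ℂ (Pi.single i (1 : ℂ) : I → ℂ)).prod =
      ExteriorAlgebra.ιMulti ℂ l.length (fun k => (Pi.single (l.get k) (1 : ℂ) : I → ℂ)) := by
    rw [ExteriorAlgebra.ιMulti_apply]
    congr 1
    conv_lhs => rw [← List.ofFn_get l, List.map_ofFn]
    rfl
  rw [h1]
  have h2 : ∀ (n : ℕ) (g : Fin n → I), n = Fintype.card I → Function.Surjective g →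
      topF I (ExteriorAlgebra.ιMulti ℂ n (fun k => (Pi.single (g k) (1 : ℂ) : I → ℂ))) ≠ 0 ∧
      topF I (ExteriorAlgebra.ιMulti ℂ n (fun k => (Pi.single (g k) (1 : ℂ) : I → ℂ))) ^ 2 = 1 := by
    intro n g hn hg
    subst hn
    rw [topF_iota, topA_apply]
    have hb : Function.Bijective (g ∘ Fintype.equivFinOfCardEq (α := I) rfl) :=
      (Finite.surjective_iff_bijective).mp (hg.comp (Equiv.surjective _))
    have h3 : (fun k => (Pi.single (g k) (1 : ℂ) : I → ℂ)) ∘ Fintype.equivFinOfCardEq (α := I) rfl =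
        (Pi.basisFun ℂ I) ∘ (Equiv.ofBijective _ hb) := by
      funext i
      simp
    rw [h3, AlternatingMap.map_perm, Module.Basis.det_self]
    rcases Int.units_eq_one_or (Equiv.Perm.sign (Equiv.ofBijective _ hb)) with h | h <;> simp [h]
  refine h2 l.length l.get hl fun i => ?_
  obtain ⟨k, hk⟩ := List.get_of_mem (hm i)
  exact ⟨k, hk⟩

end top

section pairs

variable {m : ℕ}

/-- index set of the vectors -/
abbrev I2 (m : ℕ) := (Fin m × Bool) × Bool

/-- basis vectors -/
noncomputable def th (m : ℕ) (s : Bool) (x : Fin m × Bool) : I2 m → ℂ := Pi.single (x, s) 1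

/-- pairs -/
def pairL (m : ℕ) (s : Bool) : List (I2 m) :=
  (List.finRange m).flatMap fun b => [((b, false), s), ((b, true), s)]

theorem mem_pairL (s : Bool) (x : Fin m × Bool) : (x, s) ∈ pairL m s := by
  obtain ⟨b, t⟩ := x
  unfold pairL
  rw [List.mem_flatMap]
  refine ⟨b, List.mem_finRange b, ?_⟩
  cases t <;> simp

theorem length_pairL (s : Bool) : (pairL m s).length = 2 * m := by
  unfold pairL
  simp [List.length_flatMap]
  ring

theorem zval_phi (s : Bool) : zval (phi (th m s)) =
    ((pairL m s).map fun i => ExteriorAlgebra.ι ℂ (Pi.single i (1 : ℂ) : I2 m → ℂ)).prod := by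
  rw [phi, Fin.prod_univ_def, map_list_prod, pairL]
  generalize List.finRange m = l
  induction l with
  | nil => rfl
  | cons b l ih =>
    simp only [List.map_cons, List.prod_cons, List.flatMap_cons, List.map_append,
      List.prod_append, ih]
    congr 1
    simp only [List.map_nil, List.prod_nil, mul_one]
    rfl

/-- normalising constant -/
noncomputable def kap (m : ℕ) : ℂ := topF (I2 m) (zval (phi (th m false) * phi (th m true)))

theorem kap_sq (m : ℕ) : kap m ^ 2 = 1 := by
  have h := topF_list (I := I2 m) (pairL m false ++ pairL m true) (by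
    rw [List.length_append, length_pairL, length_pairL]
    simp only [Fintype.card_prod, Fintype.card_fin, Fintype.card_bool]
    ring) (by
    rintro ⟨x, s⟩
    rw [List.mem_append]
    cases s
    · exact Or.inl (mem_pairL false x)
    · exact Or.inr (mem_pairL true x))
  rw [List.map_append, List.prod_append, ← zval_phi, ← zval_phi, ← map_mul] at h
  exact h.2

/-- the normalised functional -/
noncomputable def LF (m : ℕ) : ExteriorAlgebra ℂ (I2 m → ℂ) →ₗ[ℂ] ℂ := kap m • topF (I2 m)

theorem LF_phi (m : ℕ) : LF m (zval (phi (th m false) * phi (th m true))) = 1 := by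
  have h := kap_sq m
  rw [LF, LinearMap.smul_apply, smul_eq_mul]
  rw [sq] at h
  exact h

theorem LF_map {f : (I2 m → ℂ) →ₗ[ℂ] (I2 m → ℂ)} (hf : LinearMap.det f = 1)
    (x : ExteriorAlgebra ℂ (I2 m → ℂ)) : LF m (ExteriorAlgebra.map f x) = LF m x := by
  rw [LF, LinearMap.smul_apply, LinearMap.smul_apply, topF_map, hf, one_mul]

theorem LF_el (C : Fin m → C4 m) :
    LF m (zval (∏ b, el (th m false) (th m true) (C b))) = gmC C := by
  rw [prod_el, map_smul, map_smul, LF_phi, smul_eq_mul, mul_one]

end pairs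

end Pool.Agent.Y195.HF
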